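import Pool.Agent.Y194.UP.Zero

/-!
# The `l`-adic uncertainty principle for finite abelian `l`-groups
-/

set_option autoImplicit false

namespace Pool.Agent.Y194.UP

open Finset Module Filter Topology
open scoped NumberField

section
variable {K : Type*} [Field K] (σ : K →+* ℂ) {G : Type*} [CommGroup G]

/-- evaluation at a finite set of characters -/
noncomputable def Phi (Z : Finset (G →* ℂ)) : MonoidAlgebra (𝓞 K) G →+* (Z → ℂ) :=
  RingHom.pi fun χ : Z => ev σ χ.1

lemma Phi_apply (Z : Finset (G →* ℂ)) (x : MonoidAlgebra (𝓞 K) G) (χ : Z) :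
    Phi σ Z x χ = ev σ χ.1 x := rfl

lemma span_chars (Z : Finset (G →* ℂ)) :
    Submodule.span ℂ (Set.range fun (a : G) (χ : Z) => (χ.1 a : ℂ)) = ⊤ := by
  classical
  by_contra h
  obtain ⟨f, hf0, hle⟩ := Submodule.exists_le_ker_of_lt_top _ (lt_top_iff_ne_top.2 h)
  apply hf0
  have h1 : ∀ w : Z → ℂ, f w = ∑ χ : Z, w χ * f (Pi.single χ 1) := by
    intro w
    conv_lhs => rw [pi_eq_sum_univ' w]
    rw [map_sum]
    refine sum_congr rfl fun χ _ => ?_
    rw [map_smul, smul_eq_mul]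
  have h2 : ∀ a : G, ∑ χ : Z, f (Pi.single χ 1) * (χ.1 a : ℂ) = 0 := by
    intro a
    have h3 : (fun χ : Z => (χ.1 a : ℂ)) ∈ LinearMap.ker f := hle (Submodule.subset_span ⟨a, rfl⟩)
    rw [LinearMap.mem_ker, h1] at h3
    rw [← h3]
    exact sum_congr rfl fun χ _ => mul_comm _ _
  have h4 : LinearIndependent ℂ (fun χ : Z => ((χ.1 : G →* ℂ) : G → ℂ)) :=
    (linearIndependent_monoidHom G ℂ).comp (fun χ : Z => χ.1) Subtype.val_injective
  have h5 := Fintype.linearIndependent_iff.1 h4 (fun χ => f (Pi.single χ 1)) (by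
    funext a
    rw [Finset.sum_apply]
    simp only [Pi.smul_apply, smul_eq_mul, Pi.zero_apply]
    exact h2 a)
  ext w
  rw [LinearMap.comp_apply, LinearMap.comp_apply]
  have := h5 w
  simpa using this

lemma rank_ge [NumberField K] [Finite G] (Z : Finset (G →* ℂ)) :
    Z.card * finrank ℤ (𝓞 K) ≤
      finrank ℤ (LinearMap.range (Phi σ Z).toAddMonoidHom.toIntLinearMap) := by
  classical
  set v : G → Z → ℂ := fun a χ => (χ.1 a : ℂ) with hv
  obtain ⟨m, hm, t, a, ha, hli⟩ : ∃ m : ℕ, m = Z.card ∧ ∃ t : Fin m → (Z → ℂ), ∃ a : Fin m → G,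
      (∀ i, v (a i) = t i) ∧ LinearIndependent ℂ t := by
    obtain ⟨t, ht, -, hli⟩ := Submodule.exists_fun_fin_finrank_span_eq ℂ (Set.range v)
    choose a ha using ht
    refine ⟨_, ?_, t, a, ha, hli⟩
    rw [hv, span_chars, finrank_top, Module.finrank_fintype_fun_eq_card, Fintype.card_coe]
  let r : (Fin m → 𝓞 K) →+ MonoidAlgebra (𝓞 K) G :=
    { toFun := fun o => ∑ i, MonoidAlgebra.single (a i) (o i)
      map_zero' := by simp
      map_add' := by
        intro o o'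
        rw [← sum_add_distrib]
        refine sum_congr rfl fun i _ => ?_
        rw [Pi.add_apply, MonoidAlgebra.single_add] }
  let Ψ : (Fin m → 𝓞 K) →ₗ[ℤ] LinearMap.range (Phi σ Z).toAddMonoidHom.toIntLinearMap :=
    (Phi σ Z).toAddMonoidHom.toIntLinearMap.rangeRestrict ∘ₗ r.toIntLinearMap
  have hΨ : ∀ o, ((Ψ o : Z → ℂ)) = Phi σ Z (r o) := fun o => rfl
  have hinj : Function.Injective Ψ := by
    rw [injective_iff_map_eq_zero]
    intro o ho
    have h1 : Phi σ Z (r o) = 0 := by rw [← hΨ, ho]; rfl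
    have h2 : ∑ i, σ (o i) • t i = 0 := by
      funext χ
      have h3 := congrFun h1 χ
      rw [Phi_apply] at h3
      have h4 : ev σ χ.1 (r o) = ∑ i, σ (o i) * χ.1 (a i) := by
        show ev σ χ.1 (∑ i, MonoidAlgebra.single (a i) (o i)) = _
        rw [map_sum]
        exact sum_congr rfl fun i _ => ev_single _ _ _ _
      rw [h4] at h3
      rw [Finset.sum_apply]
      rw [Pi.zero_apply] at h3 ⊢
      rw [← h3]
      refine sum_congr rfl fun i _ => ?_
      rw [Pi.smul_apply, smul_eq_mul, ← ha i]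
    have h5 := Fintype.linearIndependent_iff.1 hli (fun i => σ (o i)) h2
    funext i
    have h6 : (o i : K) = 0 := by
      have := h5 i
      rwa [map_eq_zero] at this
    rw [Pi.zero_apply]
    exact_mod_cast h6
  have h7 := LinearMap.finrank_le_finrank_of_injective hinj
  rw [Module.finrank_pi_fintype, sum_const, card_univ, Fintype.card_fin, smul_eq_mul, hm] at h7
  exact h7

lemma geo_limit {θ A B : ℝ} (h0 : 0 ≤ θ) (h1 : θ < 1) {v : ℕ}
    (h : ∀ n : ℕ, A * ∑ k ∈ range n, θ ^ k ≤ B * ∑ k ∈ range v, θ ^ k) :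
    A ≤ B * (1 - θ ^ v) := by
  have hθ : 0 < 1 - θ := by linarith
  have h2 : ∀ n : ℕ, ∑ k ∈ range n, θ ^ k = (1 - θ ^ n) / (1 - θ) := by
    intro n
    rw [geom_sum_eq h1.ne, ← neg_div_neg_eq, neg_sub, neg_sub]
  have h3 : ∀ n : ℕ, A * (1 - θ ^ n) ≤ B * (1 - θ ^ v) := by
    intro n
    have h4 := h n
    rw [h2, h2, ← mul_div_assoc, ← mul_div_assoc, div_le_div_iff_of_pos_right hθ] at h4
    exact h4
  have h5 : Tendsto (fun n : ℕ => A * (1 - θ ^ n)) atTop (𝓝 (A * (1 - 0))) :=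
    (tendsto_const_nhds.sub (tendsto_pow_atTop_nhds_zero_of_lt_one h0 h1)).const_mul A
  rw [sub_zero, mul_one] at h5
  exact le_of_tendsto' h5 h3

/-- **the `l`-adic uncertainty principle**: an element of the group ring of a finite abelian
`l`-group with augmentation dividing `c ≠ 0` vanishes at no more than
`(1 - l ^ (-v)) * card G` characters, `v = v_l(c)` -/
theorem zeros_le [NumberField K] [Finite G] {l : ℕ} (hl : l.Prime) (hG : IsPGroup l G)
    (x : MonoidAlgebra (𝓞 K) G) {c : ℕ} (hc : c ≠ 0) {d : 𝓞 K} (hcx : (c : 𝓞 K) = d * aug K G x)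
    (Z : Finset (G →* ℂ)) (hZ : ∀ χ ∈ Z, ev σ χ x = 0) :
    (Z.card : ℝ) ≤ Nat.card G * (1 - ((l : ℝ)⁻¹) ^ (padicValNat l c)) := by
  have hF : FinI (MonoidAlgebra (𝓞 K) G) l := finI hl.ne_zero
  have hlog : 0 < Real.log l := Real.log_pos (by exact_mod_cast hl.one_lt)
  have hr : 0 < finrank ℤ (𝓞 K) := Module.finrank_pos
  have hx : Ideal.span {x} ≤ RingHom.ker (Phi σ Z) := by
    rw [Ideal.span_singleton_le_iff_mem, RingHom.mem_ker]
    funext χ
    exact hZ χ.1 χ.2
  set d' := finrank ℤ (LinearMap.range (Phi σ Z).toAddMonoidHom.toIntLinearMap) with hd'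
  have h1 : ∀ k : ℕ, cI l (RingHom.ker (Phi σ Z)) k = k * (d' * Real.log l) := by
    intro k
    unfold cI
    have h2 := ix_ker (Phi σ Z) (l ^ k)
    rw [Nat.cast_pow] at h2
    rw [h2, ← hd']
    push_cast
    rw [Real.log_pow, Real.log_pow]
    ring
  have h3 : ∀ n : ℕ, D l n (RingHom.ker (Phi σ Z)) =
      (∑ k ∈ range n, ((l : ℝ)⁻¹) ^ k) * (d' * Real.log l) := by
    intro n
    unfold D
    rw [sum_mul]
    refine sum_congr rfl fun k _ => ?_
    rw [h1, h1]
    push_cast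
    ring
  refine geo_limit (by positivity) (inv_lt_one_of_one_lt₀ (by exact_mod_cast hl.one_lt))
    fun n => ?_
  have h4 := (D_mono hF hx n).trans (D_span_le hl hG x hc hcx n)
  rw [h3] at h4
  have h5 : ((Z.card : ℝ)) * finrank ℤ (𝓞 K) ≤ d' := by exact_mod_cast rank_ge σ Z
  have h6 : (0 : ℝ) < finrank ℤ (𝓞 K) * Real.log l := mul_pos (by exact_mod_cast hr) hlog
  have h7 : (0 : ℝ) ≤ ∑ k ∈ range n, ((l : ℝ)⁻¹) ^ k := sum_nonneg fun k _ => by positivity
  refine le_of_mul_le_mul_right ?_ h6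
  calc (Z.card : ℝ) * (∑ k ∈ range n, ((l : ℝ)⁻¹) ^ k) * (finrank ℤ (𝓞 K) * Real.log l)
      = (∑ k ∈ range n, ((l : ℝ)⁻¹) ^ k) * ((Z.card * finrank ℤ (𝓞 K)) * Real.log l) := by ring
    _ ≤ (∑ k ∈ range n, ((l : ℝ)⁻¹) ^ k) * (d' * Real.log l) :=
        mul_le_mul_of_nonneg_left (mul_le_mul_of_nonneg_right h5 hlog.le) h7
    _ ≤ _ := h4
    _ = _ := by ring

end

end Pool.Agent.Y194.UP
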