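import Pool.Agent.Y194.UP.Main

/-!
# The uncertainty principle for functions on the dual group
-/

set_option autoImplicit false

namespace Pool.Agent.Y194.UP

open Finset Module
open scoped NumberField

theorem dual_zeros {K : Type*} [Field K] [NumberField K] (σ : K →+* ℂ)
    {H : Type*} [CommGroup H] [Finite H] {l : ℕ} (hl : l.Prime)
    (hH : IsPGroup l H) {ι U : Type*} [Fintype ι] [Fintype U] (e : U → H →* ℂˣ)
    (y : ι → U → 𝓞 K) {c : ℕ} (hc : c ≠ 0) {d : 𝓞 K}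
    (hcd : (c : 𝓞 K) = d * ∏ i, ∑ u, y i u) (Z : Finset H)
    (hZ : ∀ ψ ∈ Z, ∃ i, ∑ u, σ (y i u) * ((e u ψ : ℂˣ) : ℂ) = 0) :
    (Z.card : ℝ) ≤ Nat.card H * (1 - ((l : ℝ)⁻¹) ^ (padicValNat l c)) := by
  classical
  obtain ⟨E⟩ := CommGroup.monoidHom_mulEquiv_of_hasEnoughRootsOfUnity H ℂ
  have : Finite (H →* ℂˣ) := Finite.of_equiv _ E.symm.toEquiv
  have hcard : Nat.card (H →* ℂˣ) = Nat.card H := Nat.card_congr E.toEquiv
  have hΓ : IsPGroup l (H →* ℂˣ) := hH.of_equiv E.symm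
  let χ : H → ((H →* ℂˣ) →* ℂ) := fun ψ =>
    { toFun := fun θ => ((θ ψ : ℂˣ) : ℂ)
      map_one' := by simp
      map_mul' := fun θ θ' => by simp }
  have hχv : ∀ ψ θ, χ ψ θ = ((θ ψ : ℂˣ) : ℂ) := fun _ _ => rfl
  have hχ : Function.Injective χ := by
    intro ψ ψ' hψ
    by_contra hne
    have h1 : ψ * ψ'⁻¹ ≠ 1 := fun h => hne (mul_inv_eq_one.1 h)
    obtain ⟨θ, hθ⟩ := CommGroup.exists_apply_ne_one_of_hasEnoughRootsOfUnity H ℂ h1
    apply hθ
    rw [map_mul, map_inv, mul_inv_eq_one]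
    apply Units.ext
    have h2 := congrArg (fun f : (H →* ℂˣ) →* ℂ => f θ) hψ
    simpa [hχv] using h2
  have h1 := zeros_le σ hl hΓ (∏ i, ∑ u, MonoidAlgebra.single (e u) (y i u)) hc (d := d) (by
    rw [map_prod, hcd]
    congr 1
    refine prod_congr rfl fun i _ => ?_
    rw [map_sum]
    exact sum_congr rfl fun u _ => (aug_single _ _).symm) (Z.map ⟨χ, hχ⟩) (by
    intro φ hφ
    obtain ⟨ψ, hψ, rfl⟩ := mem_map.1 hφ
    obtain ⟨i, hi⟩ := hZ ψ hψ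
    rw [map_prod]
    refine prod_eq_zero (mem_univ i) ?_
    rw [map_sum, ← hi]
    exact sum_congr rfl fun u _ => ev_single _ _ _ _)
  rw [card_map, hcard] at h1
  exact h1

theorem complex_zeros {H : Type*} [CommGroup H] [Finite H] {l : ℕ} (hl : l.Prime)
    (hH : IsPGroup l H) {ι U : Type*} [Fintype ι] [Fintype U] (e : U → H →* ℂˣ)
    (y : ι → U → ℂ) (hy : ∀ i u, IsIntegral ℤ (y i u)) (K : ι → IntermediateField ℚ ℂ)
    (hKf : ∀ i, FiniteDimensional ℚ (K i)) (hK : ∀ i u, y i u ∈ K i) (c : ι → ℤ)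
    (hc : ∀ i, c i ≠ 0) (γ : ι → ℂ) (hγ : ∀ i, IsIntegral ℤ (γ i))
    (h : ∀ i, (∑ u, y i u) * γ i = c i) (Z : Finset H)
    (hZ : ∀ ψ ∈ Z, ∃ i, ∑ u, y i u * ((e u ψ : ℂˣ) : ℂ) = 0) :
    (Z.card : ℝ) ≤ Nat.card H * (1 - ((l : ℝ)⁻¹) ^ (padicValInt l (∏ i, c i))) := by
  classical
  set L : IntermediateField ℚ ℂ := ⨆ i, K i with hL
  have hLf : FiniteDimensional ℚ L := by
    rw [hL]
    exact IntermediateField.finiteDimensional_iSup_of_finite
  have hLN : NumberField L := { to_charZero := inferInstance, to_finiteDimensional := hLf }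
  have hyL : ∀ i u, y i u ∈ L := fun i u => (le_iSup K i) (hK i u)
  have hsL : ∀ i, ∑ u, y i u ∈ L := fun i => sum_mem fun u _ => hyL i u
  have hs0 : ∀ i, ∑ u, y i u ≠ 0 := by
    intro i h0
    have h1 := h i
    rw [h0, zero_mul] at h1
    exact hc i (by exact_mod_cast h1.symm)
  have hγL : ∀ i, γ i ∈ L := by
    intro i
    have h1 : γ i = ((c i : ℤ) : ℂ) * (∑ u, y i u)⁻¹ := by
      rw [← h i]
      field_simp [hs0 i]
    rw [h1]
    exact mul_mem (intCast_mem _ _) (inv_mem (hsL i))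
  let y' : ι → U → 𝓞 L := fun i u =>
    ⟨⟨y i u, hyL i u⟩, IntermediateField.coe_isIntegral_iff.1 (hy i u)⟩
  let γ' : ι → 𝓞 L := fun i => ⟨⟨γ i, hγL i⟩, IntermediateField.coe_isIntegral_iff.1 (hγ i)⟩
  let σ : L →+* ℂ := L.val.toRingHom
  have hσy : ∀ i u, σ (y' i u) = y i u := fun i u => rfl
  have hσγ : ∀ i, σ (γ' i) = γ i := fun i => rfl
  let τ : 𝓞 L →+* ℂ := σ.comp (algebraMap (𝓞 L) L)
  have hτy : ∀ i u, τ (y' i u) = y i u := fun i u => rfl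
  have hτγ : ∀ i, τ (γ' i) = γ i := fun i => rfl
  have hτinj : Function.Injective τ := by
    intro z z' hz
    have h1 : (algebraMap (𝓞 L) L) z = (algebraMap (𝓞 L) L) z' := σ.injective hz
    exact_mod_cast h1
  have hprod : ((∏ i, c i : ℤ) : 𝓞 L) = (∏ i, γ' i) * ∏ i, ∑ u, y' i u := by
    apply hτinj
    rw [← prod_mul_distrib, map_intCast, map_prod]
    rw [Int.cast_prod]
    refine prod_congr rfl fun i _ => ?_
    rw [map_mul, map_sum, hτγ]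
    simp only [hτy]
    rw [← h i, mul_comm]
  have hc0 : (∏ i, c i).natAbs ≠ 0 := Int.natAbs_ne_zero.2 (prod_ne_zero_iff.2 fun i _ => hc i)
  have hcd : (((∏ i, c i).natAbs : ℕ) : 𝓞 L) =
      (((∏ i, c i).sign : ℤ) : 𝓞 L) * (∏ i, γ' i) * ∏ i, ∑ u, y' i u := by
    rw [mul_assoc, ← hprod]
    have h1 := Int.mul_sign_self (∏ i, c i)
    have h2 : (((∏ i, c i) * (∏ i, c i).sign : ℤ) : 𝓞 L) = (((∏ i, c i).natAbs : ℤ) : 𝓞 L) := by
      rw [h1]
    rw [Int.cast_natCast, Int.cast_mul] at h2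
    rw [← h2, mul_comm]
  exact dual_zeros σ hl hH e y' hc0 hcd Z (by
    intro ψ hψ
    obtain ⟨i, hi⟩ := hZ ψ hψ
    exact ⟨i, by simpa only [hσy] using hi⟩)

/-- the number of the elements outside `Z` -/
theorem many {n v z l : ℕ} (hl : 1 < l) (h : (z : ℝ) ≤ n * (1 - ((l : ℝ)⁻¹) ^ v)) :
    n ≤ l ^ v * (n - z) := by
  have hl0 : (0 : ℝ) < (l : ℝ) ^ v := by positivity
  have h1 : ((l : ℝ)⁻¹) ^ v ≤ 1 := pow_le_one₀ (by positivity)
    (inv_le_one_of_one_le₀ (by exact_mod_cast hl.le))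
  have hzn : z ≤ n := by
    have : (z : ℝ) ≤ n := by
      refine h.trans ?_
      have : (0 : ℝ) ≤ n * ((l : ℝ)⁻¹) ^ v := by positivity
      linarith
    exact_mod_cast this
  have h2 : (n : ℝ) ≤ (l : ℝ) ^ v * ((n : ℝ) - z) := by
    have h3 : (n : ℝ) * ((l : ℝ)⁻¹) ^ v ≤ n - z := by linarith
    have h4 := mul_le_mul_of_nonneg_left h3 hl0.le
    rw [inv_pow] at h4
    calc (n : ℝ) = (l : ℝ) ^ v * (n * ((l : ℝ) ^ v)⁻¹) := by field_simp
      _ ≤ _ := h4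
  have h3 : ((n : ℝ) - z) = ((n - z : ℕ) : ℝ) := by rw [Nat.cast_sub hzn]
  rw [h3] at h2
  exact_mod_cast h2

end Pool.Agent.Y194.UP
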