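import Pool.Agent.Y194.UP.Loc2
import Pool.Agent.Y194.UP.Dual

/-!
# The uncertainty principle at one maximal ideal of the ring of algebraic integers
-/

set_option autoImplicit false

namespace Pool.Agent.Y194.UP

open Finset Module
open scoped NumberField

lemma ix_card {R : Type*} [CommRing R] (J : Ideal R) : ix J = Nat.card (R ⧸ J) :=
  Submodule.cardQuot_apply J

theorem finI_loc {L : Type*} [Field L] [NumberField L] (P : Ideal (𝓞 L)) [hP : P.IsPrime] {l : ℕ}
    (hl : l.Prime) (hlP : (l : 𝓞 L) ∈ P) :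
    FinI (Localization.AtPrime P) l ∧ ix (Ideal.span {(l : Localization.AtPrime P)}) ≠ 1 ∧
      IsPrincipalIdealRing (Localization.AtPrime P) := by
  have hl0 : (l : 𝓞 L) ≠ 0 := by exact_mod_cast hl.ne_zero
  have hne : P ≠ ⊥ := by
    rintro rfl
    exact hl0 ((Submodule.mem_bot _).1 hlP)
  have hmax : P.IsMaximal := hP.isMaximal hne
  have hdvr : IsDiscreteValuationRing (Localization.AtPrime P) :=
    IsLocalization.AtPrime.isDiscreteValuationRing_of_dedekind_domain (𝓞 L) hne _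
  have hfin0 : Finite (𝓞 L ⧸ P) := Ideal.finiteQuotientOfFreeOfNeBot P hne
  have hfin1 : Finite (Localization.AtPrime P ⧸
      IsLocalRing.maximalIdeal (Localization.AtPrime P)) :=
    Finite.of_equiv _ (IsLocalization.AtPrime.equivQuotMaximalIdeal P
      (Localization.AtPrime P)).toEquiv
  have hinj : Function.Injective (algebraMap (𝓞 L) (Localization.AtPrime P)) :=
    IsLocalization.injective _ P.primeCompl_le_nonZeroDivisors
  refine ⟨?_, ?_, inferInstance⟩
  · intro k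
    have h0 : Ideal.span {(l : Localization.AtPrime P) ^ k} ≠ ⊥ := by
      rw [Ne, Ideal.span_singleton_eq_bot]
      refine pow_ne_zero _ ?_
      rw [← map_natCast (algebraMap (𝓞 L) (Localization.AtPrime P)) l]
      rw [Ne, map_eq_zero_iff _ hinj]
      exact hl0
    obtain ⟨n, hn⟩ := exists_maximalIdeal_pow_eq_of_principal (Localization.AtPrime P)
      (IsPrincipalIdealRing.principal _) _ h0
    rw [hn, ix_card]
    have : Finite (Localization.AtPrime P ⧸
        IsLocalRing.maximalIdeal (Localization.AtPrime P) ^ n) :=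
      Ideal.finite_quotient_pow (IsNoetherian.noetherian _) n
    exact Nat.card_pos.ne'
  · intro h
    rw [ix_card] at h
    have h1 : Ideal.span {(l : Localization.AtPrime P)} = ⊤ := by
      have h2 : Subsingleton (Localization.AtPrime P ⧸
          Ideal.span {(l : Localization.AtPrime P)}) := (Nat.card_eq_one_iff_unique.1 h).1
      exact Ideal.Quotient.subsingleton_iff.1 h2
    rw [Ideal.span_singleton_eq_top] at h1
    rw [← map_natCast (algebraMap (𝓞 L) (Localization.AtPrime P)) l,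
      IsLocalization.AtPrime.isUnit_to_map_iff (Localization.AtPrime P) P] at h1
    exact h1 hlP

lemma augA_prod {A : Type*} [CommRing A] [IsDomain A] {G : Type*} [CommGroup G] {ι U : Type*}
    [Fintype ι] [Fintype U] (e : U → G) (y : ι → U → A) :
    augA A G (∏ i, ∑ u, MonoidAlgebra.single (e u) (y i u)) = ∏ i, ∑ u, y i u := by
  rw [map_prod]
  refine prod_congr rfl fun i _ => ?_
  rw [map_sum]
  exact sum_congr rfl fun u _ => augA_single _ _

lemma evA_prod {A : Type*} [CommRing A] [IsDomain A] [Algebra A ℂ] {G : Type*} [CommGroup G]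
    {ι U : Type*} [Fintype ι] [Fintype U] (e : U → G) (y : ι → U → A) (χ : G →* ℂ) :
    evA χ (∏ i, ∑ u, MonoidAlgebra.single (e u) (y i u)) =
      ∏ i, ∑ u, algebraMap A ℂ (y i u) * χ (e u) := by
  rw [map_prod]
  refine prod_congr rfl fun i _ => ?_
  rw [map_sum]
  exact sum_congr rfl fun u _ => evA_single _ _ _

theorem dual_zerosA {A : Type*} [CommRing A] [IsDomain A] [Algebra A ℂ] [IsPrincipalIdealRing A]
    [Module.IsTorsionFree A ℂ] {H : Type*} [CommGroup H] [Finite H] {l : ℕ} (hl : l.Prime)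
    (hF : FinI A l) (hl1 : ix (Ideal.span {(l : A)}) ≠ 1)
    (hH : IsPGroup l H) {ι U : Type*} [Fintype ι] [Fintype U] (e : U → H →* ℂˣ)
    (y : ι → U → A) {c : ℕ} (hc : c ≠ 0) {d : A}
    (hcd : (c : A) = d * ∏ i, ∑ u, y i u) (Z : Finset H)
    (hZ : ∀ ψ ∈ Z, ∃ i, ∑ u, algebraMap A ℂ (y i u) * ((e u ψ : ℂˣ) : ℂ) = 0) :
    (Z.card : ℝ) ≤ Nat.card H * (1 - ((l : ℝ)⁻¹) ^ (padicValNat l c)) := by
  classical
  obtain ⟨E⟩ := CommGroup.monoidHom_mulEquiv_of_hasEnoughRootsOfUnity H ℂ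
  have : Finite (H →* ℂˣ) := Finite.of_equiv _ E.symm.toEquiv
  have hcard : Nat.card (H →* ℂˣ) = Nat.card H := Nat.card_congr E.toEquiv
  have hΓ : IsPGroup l (H →* ℂˣ) := hH.of_equiv E.symm
  let χ : H → ((H →* ℂˣ) →* ℂ) := fun ψ =>
    { toFun := fun θ => ((θ ψ : ℂˣ) : ℂ)
      map_one' := by simp
      map_mul' := fun θ θ' => by simp }
  have hχv : ∀ ψ θ, χ ψ θ = ((θ ψ : ℂˣ) : ℂ) := fun _ _ => rfl
  have hχ : Function.Injective χ := by
    intro ψ ψ' hψ
    by_contra hne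
    have h1 : ψ * ψ'⁻¹ ≠ 1 := fun h => hne (mul_inv_eq_one.1 h)
    obtain ⟨θ, hθ⟩ := CommGroup.exists_apply_ne_one_of_hasEnoughRootsOfUnity H ℂ h1
    apply hθ
    rw [map_mul, map_inv, mul_inv_eq_one]
    apply Units.ext
    have h2 := congrArg (fun f : (H →* ℂˣ) →* ℂ => f θ) hψ
    simpa [hχv] using h2
  have h1 := zeros_leA (A := A) hl hF hl1 hΓ (∏ i, ∑ u, MonoidAlgebra.single (e u) (y i u)) hc
    (d := d) (hcd.trans (congrArg (fun z => d * z) (augA_prod e y).symm)) (Z.map ⟨χ, hχ⟩) (by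
    intro φ hφ
    obtain ⟨ψ, hψ, rfl⟩ := mem_map.1 hφ
    obtain ⟨i, hi⟩ := hZ ψ hψ
    exact (evA_prod e y _).trans (prod_eq_zero (mem_univ i) hi))
  rw [card_map, hcard] at h1
  exact h1

theorem complex_zeros_loc {H : Type*} [CommGroup H] [Finite H] {l : ℕ} (hl : l.Prime)
    (hH : IsPGroup l H) {ι U : Type*} [Fintype ι] [Fintype U] (e : U → H →* ℂˣ)
    (𝔪 : Ideal (integralClosure ℤ ℂ)) (hmax : 𝔪.IsPrime) (hlm : (l : integralClosure ℤ ℂ) ∈ 𝔪)
    (y : ι → U → ℂ) (hy : ∀ i u, IsIntegral ℤ (y i u)) (c : ι → ℤ)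
    (hc : ∀ i, c i ≠ 0) (γ : ι → ℂ) (hγ : ∀ i, IsIntegral ℤ (γ i))
    (s : ι → integralClosure ℤ ℂ) (hs : ∀ i, s i ∉ 𝔪)
    (h : ∀ i, (∑ u, y i u) * γ i = c i * (s i : ℂ)) (Z : Finset H)
    (hZ : ∀ ψ ∈ Z, ∃ i, ∑ u, y i u * ((e u ψ : ℂˣ) : ℂ) = 0) :
    (Z.card : ℝ) ≤ Nat.card H * (1 - ((l : ℝ)⁻¹) ^ (padicValInt l (∏ i, c i))) := by
  classical
  set T : Finset ℂ := (univ : Finset (ι × U)).image (fun z => y z.1 z.2) ∪
    univ.image γ ∪ univ.image (fun i => (s i : ℂ)) with hT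
  set L : IntermediateField ℚ ℂ := IntermediateField.adjoin ℚ (T : Set ℂ) with hL
  have hTi : ∀ z ∈ T, IsIntegral ℤ z := by
    intro z hz
    rw [hT, mem_union, mem_union] at hz
    rcases hz with (hz | hz) | hz
    · obtain ⟨w, -, rfl⟩ := mem_image.1 hz
      exact hy _ _
    · obtain ⟨w, -, rfl⟩ := mem_image.1 hz
      exact hγ _
    · obtain ⟨w, -, rfl⟩ := mem_image.1 hz
      exact (s w).2
  have hLf : FiniteDimensional ℚ L := by
    rw [hL]
    have : Finite ((T : Finset ℂ) : Set ℂ) := Finite.of_fintype _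
    exact IntermediateField.finiteDimensional_adjoin fun x hx =>
      (hTi x (Finset.mem_coe.1 hx)).tower_top
  have hLN : NumberField L := { to_charZero := inferInstance, to_finiteDimensional := hLf }
  have hTL : ∀ z ∈ T, z ∈ L := fun z hz => IntermediateField.subset_adjoin _ _ (mem_coe.2 hz)
  have hyT : ∀ i u, y i u ∈ T := fun i u => mem_union_left _ (mem_union_left _
    (mem_image.2 ⟨(i, u), mem_univ _, rfl⟩))
  have hγT : ∀ i, γ i ∈ T := fun i => mem_union_left _ (mem_union_right _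
    (mem_image_of_mem _ (mem_univ _)))
  have hsT : ∀ i, (s i : ℂ) ∈ T := fun i => mem_union_right _ (mem_image.2 ⟨i, mem_univ _, rfl⟩)
  -- elements of the ring of integers
  let mk : ∀ z : ℂ, z ∈ T → 𝓞 L := fun z hz =>
    ⟨⟨z, hTL z hz⟩, IntermediateField.coe_isIntegral_iff.1 (hTi z hz)⟩
  let σ : L →+* ℂ := L.val.toRingHom
  let τ : 𝓞 L →+* ℂ := σ.comp (algebraMap (𝓞 L) L)
  have hτ : ∀ z hz, τ (mk z hz) = z := fun z hz => rfl
  have hτinj : Function.Injective τ := by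
    intro z z' hz
    have h1 : (algebraMap (𝓞 L) L) z = (algebraMap (𝓞 L) L) z' := σ.injective hz
    exact_mod_cast h1
  have hτint : ∀ z, IsIntegral ℤ (τ z) := fun z => (z.isIntegral_coe).map σ.toIntAlgHom
  let τ' : 𝓞 L →+* integralClosure ℤ ℂ := τ.codRestrict (integralClosure ℤ ℂ).toSubring
    (fun z => hτint z)
  have hτ' : ∀ z, ((τ' z : integralClosure ℤ ℂ) : ℂ) = τ z := fun z => rfl
  set P : Ideal (𝓞 L) := 𝔪.comap τ' with hP
  have hPp : P.IsPrime := Ideal.comap_isPrime τ' 𝔪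
  have hlP : (l : 𝓞 L) ∈ P := by
    rw [hP, Ideal.mem_comap, map_natCast]
    exact hlm
  have hsP : ∀ i, mk (s i) (hsT i) ∉ P := by
    intro i hi
    rw [hP, Ideal.mem_comap] at hi
    have : τ' (mk (s i) (hsT i)) = s i := Subtype.ext (by rw [hτ', hτ _ (hsT i)])
    rw [this] at hi
    exact hs i hi
  obtain ⟨hF, hl1, hpid⟩ := finI_loc P hl hlP
  set A := Localization.AtPrime P with hA
  have hunit : ∀ w : P.primeCompl, IsUnit (τ w) := by
    intro w
    rw [isUnit_iff_ne_zero]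
    intro h0
    have h1 : (w : 𝓞 L) = 0 := hτinj (by rw [h0, map_zero])
    exact w.2 (by rw [h1]; exact P.zero_mem)
  let g : A →+* ℂ := IsLocalization.lift hunit
  have hg : ∀ z : 𝓞 L, g (algebraMap (𝓞 L) A z) = τ z := fun z => IsLocalization.lift_eq hunit z
  have hginj : Function.Injective g := by
    refine (IsLocalization.lift_injective_iff hunit).2 fun z z' => ?_
    have hinj : Function.Injective (algebraMap (𝓞 L) A) :=
      IsLocalization.injective _ P.primeCompl_le_nonZeroDivisors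
    exact ⟨fun h => congrArg τ (hinj h), fun h => congrArg _ (hτinj h)⟩
  let _ : Algebra A ℂ := g.toAlgebra
  have halg : ∀ z : A, algebraMap A ℂ z = g z := fun z => rfl
  have htf : Module.IsTorsionFree A ℂ := Module.isTorsionFree_iff_algebraMap_injective.2 hginj
  let Y : ι → U → A := fun i u => algebraMap (𝓞 L) A (mk (y i u) (hyT i u))
  have hY : ∀ i u, algebraMap A ℂ (Y i u) = y i u := fun i u => by rw [halg, hg, hτ _ (hyT i u)]
  -- the units
  have hsu : ∀ i, IsUnit (algebraMap (𝓞 L) A (mk (s i) (hsT i))) := fun i =>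
    (IsLocalization.AtPrime.isUnit_to_map_iff A P _).2 (hsP i)
  choose su hsu using hsu
  have hci : ∀ i, ((c i : ℤ) : A) = (algebraMap (𝓞 L) A (mk (γ i) (hγT i)) * ((su i)⁻¹ : Aˣ)) *
      ∑ u, Y i u := by
    intro i
    have h1 : ((c i : ℤ) : A) * (su i : A) = algebraMap (𝓞 L) A (mk (γ i) (hγT i)) *
        ∑ u, Y i u := by
      apply hginj
      rw [map_mul, map_mul, map_intCast, map_sum, hsu, hg, hg, hτ _ (hsT i), hτ _ (hγT i)]
      have h2 : ∑ u, g (Y i u) = ∑ u, y i u := sum_congr rfl fun u _ => hY i u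
      rw [h2, ← h i, mul_comm]
    calc ((c i : ℤ) : A) = ((c i : ℤ) : A) * (su i : A) * ((su i)⁻¹ : Aˣ) := by
          rw [mul_assoc, Units.mul_inv, mul_one]
      _ = _ := by rw [h1]; ring
  have hc0 : (∏ i, c i).natAbs ≠ 0 := Int.natAbs_ne_zero.2 (prod_ne_zero_iff.2 fun i _ => hc i)
  exact dual_zerosA (A := A) hl hF hl1 hH e Y hc0
    (d := ((∏ i, c i).sign : ℤ) *
      ∏ i, (algebraMap (𝓞 L) A (mk (γ i) (hγT i)) * ((su i)⁻¹ : Aˣ))) (by
    rw [mul_assoc, ← prod_mul_distrib]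
    have h3 : ∏ i, (algebraMap (𝓞 L) A (mk (γ i) (hγT i)) * (((su i)⁻¹ : Aˣ) : A) * ∑ u, Y i u) =
        ((∏ i, c i : ℤ) : A) := by
      rw [Int.cast_prod]
      exact prod_congr rfl fun i _ => (hci i).symm
    rw [h3, ← Int.cast_mul, mul_comm ((∏ i, c i).sign), Int.mul_sign_self, Int.cast_natCast])
    Z (by
    intro ψ hψ
    obtain ⟨i, hi⟩ := hZ ψ hψ
    refine ⟨i, ?_⟩
    rw [← hi]
    exact sum_congr rfl fun u _ => by rw [hY])

end Pool.Agent.Y194.UP
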