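import Pool.Agent.Y194.UP.Main

/-!
# The uncertainty principle over principal ideal domains in `ℂ` (for instance localisations of rings
of integers)
-/

set_option autoImplicit false

namespace Pool.Agent.Y194.UP

open Finset Module Filter Topology

section index
variable {A : Type*} [CommRing A] [Nontrivial A]

lemma index_free {M : Type*} [AddCommGroup M] [Module A M] [Module.Free A M] [Module.Finite A M]
    (n : ℕ) : (nsmulAddMonoidHom (α := M) n).range.index =
      (ix (Ideal.span {(n : A)})) ^ finrank A M := by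
  set d := finrank A M with hd
  let e : M ≃+ (Fin d → A) := (Module.finBasis A M).equivFun.toAddEquiv
  have h1 : ((nsmulAddMonoidHom (α := M) n).range.map e.toAddMonoidHom) =
      AddSubgroup.pi Set.univ (fun _ : Fin d => (nsmulAddMonoidHom (α := A) n).range) := by
    ext v
    simp only [AddSubgroup.mem_map, AddMonoidHom.mem_range, nsmulAddMonoidHom_apply,
      AddSubgroup.mem_pi, Set.mem_univ, true_implies]
    constructor
    · rintro ⟨_, ⟨y, rfl⟩, rfl⟩ i
      refine ⟨e y i, ?_⟩
      show n • e y i = e (n • y) i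
      rw [map_nsmul, Pi.smul_apply]
    · intro h
      choose w hw using h
      refine ⟨n • e.symm w, ⟨e.symm w, rfl⟩, ?_⟩
      show e (n • e.symm w) = v
      rw [map_nsmul, AddEquiv.apply_symm_apply]
      funext i
      exact hw i
  have h2 := AddSubgroup.index_map_equiv (nsmulAddMonoidHom (α := M) n).range e
  have h3 : (nsmulAddMonoidHom (α := M) n).range.index =
      ((nsmulAddMonoidHom (α := M) n).range.map e.toAddMonoidHom).index := h2.symm
  rw [h3, h1, AddSubgroup.index_pi, prod_const, card_univ, Fintype.card_fin]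
  congr 1
  unfold ix
  rw [span_nat]

end index

section
variable {A : Type*} [CommRing A] [IsDomain A] [IsPrincipalIdealRing A] [Algebra A ℂ]
  {G : Type*} [CommGroup G]

/-- evaluation of an element of the group ring at a character -/
noncomputable def evA (χ : G →* ℂ) : MonoidAlgebra A G →ₐ[A] ℂ := MonoidAlgebra.lift A ℂ G χ

omit [IsDomain A] [IsPrincipalIdealRing A] in
lemma evA_single (χ : G →* ℂ) (a : G) (b : A) :
    evA χ (MonoidAlgebra.single a b) = algebraMap A ℂ b * χ a := by
  unfold evA
  rw [MonoidAlgebra.lift_single, Algebra.smul_def]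

variable (A G) in
/-- the augmentation -/
noncomputable def augA : MonoidAlgebra A G →ₐ[A] A := MonoidAlgebra.lift A A G 1

omit [IsDomain A] [IsPrincipalIdealRing A] [Algebra A ℂ] in
lemma augA_single (a : G) (b : A) : augA A G (MonoidAlgebra.single a b) = b := by
  unfold augA
  rw [MonoidAlgebra.lift_single]
  simp

variable (A G) in
/-- the group elements -/
noncomputable def ggA : G →* MonoidAlgebra A G := MonoidAlgebra.of A G

omit [IsDomain A] [IsPrincipalIdealRing A] [Algebra A ℂ] in
lemma sub_augA_mem (r : MonoidAlgebra A G) :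
    r - MonoidAlgebra.single 1 (augA A G r) ∈ Aug (ggA A G) := by
  induction r using MonoidAlgebra.induction_linear with
  | zero =>
    rw [map_zero, MonoidAlgebra.single_zero, sub_zero]
    exact Ideal.zero_mem _
  | add f g hf hg =>
    rw [map_add, MonoidAlgebra.single_add, add_sub_add_comm]
    exact Ideal.add_mem _ hf hg
  | single a b =>
    rw [augA_single]
    have h1 : MonoidAlgebra.single a b - MonoidAlgebra.single (1 : G) b =
        MonoidAlgebra.single (1 : G) b * (ggA A G a - 1) := by
      unfold ggA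
      rw [mul_sub, mul_one, MonoidAlgebra.of_apply, MonoidAlgebra.single_mul_single, one_mul,
        mul_one]
    rw [h1]
    exact Ideal.mul_mem_left _ _ (mem_Aug _ a)

instance instFreeA : Module.Free A (MonoidAlgebra A G) :=
  Module.Free.of_equiv (MonoidAlgebra.coeffLinearEquiv (M := G) (S := A) A).symm

instance instFinA [Finite G] : Module.Finite A (MonoidAlgebra A G) :=
  Module.Finite.equiv (MonoidAlgebra.coeffLinearEquiv (M := G) (S := A) A).symm

omit [IsPrincipalIdealRing A] [Algebra A ℂ] in
lemma finIA [Finite G] {l : ℕ} (hF : FinI A l) : FinI (MonoidAlgebra A G) l := by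
  intro k
  have h1 := index_free (A := A) (M := MonoidAlgebra A G) (l ^ k)
  have h2 : ix (Ideal.span {((l ^ k : ℕ) : MonoidAlgebra A G)}) =
      (ix (Ideal.span {((l ^ k : ℕ) : A)})) ^ finrank A (MonoidAlgebra A G) := by
    rw [← h1]
    unfold ix
    rw [span_nat]
  rw [Nat.cast_pow, Nat.cast_pow] at h2
  rw [h2]
  exact pow_ne_zero _ (hF k)

omit [IsPrincipalIdealRing A] [Algebra A ℂ] in
lemma ix_AugA [Finite G] (J : Ideal (MonoidAlgebra A G))
    (hJ : Aug (ggA A G) ≤ J) {l : ℕ} (hF : FinI A l) :
    ix (J ⊔ Ideal.span {(l : MonoidAlgebra A G)}) ≤ ix (Ideal.span {(l : A)}) := by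
  have hs : Function.Surjective (augA A G : MonoidAlgebra A G →+* A) := fun b =>
    ⟨MonoidAlgebra.single 1 b, augA_single _ _⟩
  have h0 : ix (Ideal.span {(l : A)}) ≠ 0 := by
    have := hF 1
    rwa [pow_one] at this
  have h1 : ix (Ideal.comap (augA A G : MonoidAlgebra A G →+* A) (Ideal.span {(l : A)})) =
      ix (Ideal.span {(l : A)}) := ix_comap _ hs _
  rw [← h1]
  refine ix_le_of_le ?_ (by rw [h1]; exact h0)
  intro r hr
  rw [Ideal.mem_comap] at hr
  obtain ⟨b, hb⟩ := Ideal.mem_span_singleton'.1 hr
  have h2 := sub_augA_mem r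
  have h3 : MonoidAlgebra.single (1 : G) (augA A G r) ∈
      Ideal.span {(l : MonoidAlgebra A G)} := by
    rw [Ideal.mem_span_singleton']
    refine ⟨MonoidAlgebra.single 1 b, ?_⟩
    have h4 : (l : MonoidAlgebra A G) = MonoidAlgebra.single (1 : G) (l : A) := by
      rw [MonoidAlgebra.natCast_def]
    rw [h4, MonoidAlgebra.single_mul_single, one_mul, hb]
    rfl
  have h5 := Submodule.add_mem_sup (hJ h2) h3
  rwa [sub_add_cancel] at h5

omit [IsPrincipalIdealRing A] [Algebra A ℂ] in
/-- the upper bound for the weighted count of a principal ideal -/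
theorem D_span_leA [Finite G] {l : ℕ} (hl : l.Prime) (hF : FinI A l) (hG : IsPGroup l G)
    (x : MonoidAlgebra A G) {c : ℕ} (hc : c ≠ 0) {d : A} (hcx : (c : A) = d * augA A G x)
    (n : ℕ) : D l n (Ideal.span {x}) ≤ Nat.card G *
      ((∑ k ∈ range (padicValNat l c), ((l : ℝ)⁻¹) ^ k) *
        Real.log (ix (Ideal.span {(l : A)}) : ℝ)) := by
  have hF' : FinI (MonoidAlgebra A G) l := finIA hF
  refine (chain_card hl hF' hG (ggA A G) n _).trans ?_
  refine mul_le_mul_of_nonneg_left ?_ (by positivity)
  set J := Ideal.span {x} ⊔ Aug (ggA A G) with hJ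
  have hcJ : (c : MonoidAlgebra A G) ∈ J := by
    have h4 : (c : MonoidAlgebra A G) = MonoidAlgebra.single (1 : G) (c : A) := by
      rw [MonoidAlgebra.natCast_def]
    have h5 : (c : MonoidAlgebra A G) = MonoidAlgebra.single (1 : G) d * x +
        -(MonoidAlgebra.single (1 : G) d * (x - MonoidAlgebra.single 1 (augA A G x))) := by
      rw [mul_sub, MonoidAlgebra.single_mul_single, one_mul, ← hcx, h4]
      ring
    rw [h5]
    refine Submodule.add_mem_sup ?_ ?_
    · exact Ideal.mem_span_singleton'.2 ⟨_, rfl⟩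
    · exact Ideal.neg_mem_iff _ |>.2 (Ideal.mul_mem_left _ _ (sub_augA_mem x))
  refine (D_int hl hF' hc hcJ n).trans ?_
  refine mul_le_mul_of_nonneg_left ?_ (by positivity)
  have h6 := ix_AugA J le_sup_right hF
  have h7 := hF'.sup J 1
  rw [pow_one] at h7
  have h8 : (0 : ℝ) < ix (J ⊔ Ideal.span {(l : MonoidAlgebra A G)}) :=
    Nat.cast_pos.2 (Nat.pos_of_ne_zero h7)
  exact Real.log_le_log h8 (by exact_mod_cast h6)

end

end Pool.Agent.Y194.UP
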