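import Pool.Agent.Y194.UP.Loc

/-!
# The uncertainty principle over principal ideal domains: the lower bound and the theorem
-/

set_option autoImplicit false

namespace Pool.Agent.Y194.UP

open Finset Module Filter Topology

section
variable {A : Type*} [CommRing A] [IsDomain A] [Algebra A ℂ] {G : Type*} [CommGroup G]

/-- evaluation at a finite set of characters -/
noncomputable def PhiA (Z : Finset (G →* ℂ)) : MonoidAlgebra A G →ₐ[A] (Z → ℂ) :=
  AlgHom.pi fun χ : Z => evA χ.1

omit [IsDomain A] in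
lemma PhiA_apply (Z : Finset (G →* ℂ)) (x : MonoidAlgebra A G) (χ : Z) :
    PhiA Z x χ = evA χ.1 x := rfl

lemma ix_kerA [IsPrincipalIdealRing A] [Module.IsTorsionFree A ℂ] [Finite G]
    (Z : Finset (G →* ℂ)) (n : ℕ) :
    ix (RingHom.ker (PhiA (A := A) Z) ⊔ Ideal.span {(n : MonoidAlgebra A G)}) =
      (ix (Ideal.span {(n : A)})) ^ finrank A (LinearMap.range (PhiA (A := A) Z).toLinearMap) := by
  set Φ := PhiA (A := A) Z with hΦ
  set M := LinearMap.range Φ.toLinearMap with hM
  let f : MonoidAlgebra A G →+ M := Φ.toLinearMap.rangeRestrict.toAddMonoidHom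
  have hf : Function.Surjective f := LinearMap.surjective_rangeRestrict _
  have hfv : ∀ r : MonoidAlgebra A G, ((f r : M) : Z → ℂ) = Φ r := fun r => rfl
  have h1 : (RingHom.ker Φ ⊔ Ideal.span {(n : MonoidAlgebra A G)}).toAddSubgroup =
      ((nsmulAddMonoidHom (α := M) n).range).comap f := by
    ext r
    simp only [Submodule.mem_toAddSubgroup, AddSubgroup.mem_comap, AddMonoidHom.mem_range,
      nsmulAddMonoidHom_apply]
    constructor
    · intro hr
      obtain ⟨a, ha, b', hb', hab⟩ := Submodule.mem_sup.1 hr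
      obtain ⟨b, rfl⟩ := Ideal.mem_span_singleton'.1 hb'
      refine ⟨f b, ?_⟩
      apply Subtype.ext
      rw [← map_nsmul, hfv, hfv, ← hab, map_add, (RingHom.mem_ker).1 ha, zero_add]
      congr 1
      rw [nsmul_eq_mul, mul_comm]
    · rintro ⟨m, hm⟩
      obtain ⟨b, rfl⟩ := hf m
      have h2 := congrArg (Subtype.val) hm
      rw [← map_nsmul, hfv, hfv, nsmul_eq_mul] at h2
      have h3 : r - (n : MonoidAlgebra A G) * b ∈ RingHom.ker Φ := by
        rw [RingHom.mem_ker, map_sub, h2, sub_self]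
      have h4 : (n : MonoidAlgebra A G) * b ∈ Ideal.span {(n : MonoidAlgebra A G)} :=
        Ideal.mem_span_singleton'.2 ⟨b, mul_comm _ _⟩
      have h5 := Submodule.add_mem_sup h3 h4
      rwa [sub_add_cancel] at h5
  have h2 : ix (RingHom.ker Φ ⊔ Ideal.span {(n : MonoidAlgebra A G)}) =
      (((nsmulAddMonoidHom (α := M) n).range).comap f).index := by
    unfold ix
    rw [h1]
  rw [h2, AddSubgroup.index_comap_of_surjective _ hf, index_free (A := A)]

lemma rank_geA [IsPrincipalIdealRing A] [Module.IsTorsionFree A ℂ] [Finite G]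
    (Z : Finset (G →* ℂ)) :
    Z.card ≤ finrank A (LinearMap.range (PhiA (A := A) Z).toLinearMap) := by
  classical
  set v : G → Z → ℂ := fun a χ => (χ.1 a : ℂ) with hv
  obtain ⟨m, hm, t, a, ha, hli⟩ : ∃ m : ℕ, m = Z.card ∧ ∃ t : Fin m → (Z → ℂ), ∃ a : Fin m → G,
      (∀ i, v (a i) = t i) ∧ LinearIndependent ℂ t := by
    obtain ⟨t, ht, -, hli⟩ := Submodule.exists_fun_fin_finrank_span_eq ℂ (Set.range v)
    choose a ha using ht
    refine ⟨_, ?_, t, a, ha, hli⟩
    rw [hv, span_chars, finrank_top, Module.finrank_fintype_fun_eq_card, Fintype.card_coe]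
  let r : (Fin m → A) →ₗ[A] MonoidAlgebra A G :=
    { toFun := fun o => ∑ i, MonoidAlgebra.single (a i) (o i)
      map_add' := by
        intro o o'
        rw [← sum_add_distrib]
        refine sum_congr rfl fun i _ => ?_
        rw [Pi.add_apply, MonoidAlgebra.single_add]
      map_smul' := by
        intro c o
        rw [RingHom.id_apply, smul_sum]
        refine sum_congr rfl fun i _ => ?_
        rw [Pi.smul_apply, smul_eq_mul, MonoidAlgebra.smul_single, smul_eq_mul] }
  let Ψ : (Fin m → A) →ₗ[A] LinearMap.range (PhiA (A := A) Z).toLinearMap :=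
    (PhiA (A := A) Z).toLinearMap.rangeRestrict ∘ₗ r
  have hΨ : ∀ o, ((Ψ o : Z → ℂ)) = PhiA Z (r o) := fun o => rfl
  have hinj : Function.Injective Ψ := by
    rw [injective_iff_map_eq_zero]
    intro o ho
    have h1 : PhiA Z (r o) = 0 := by rw [← hΨ, ho]; rfl
    have h2 : ∑ i, (algebraMap A ℂ (o i)) • t i = 0 := by
      funext χ
      have h3 := congrFun h1 χ
      rw [PhiA_apply] at h3
      have h4 : evA χ.1 (r o) = ∑ i, algebraMap A ℂ (o i) * χ.1 (a i) := by
        show evA χ.1 (∑ i, MonoidAlgebra.single (a i) (o i)) = _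
        rw [map_sum]
        exact sum_congr rfl fun i _ => evA_single _ _ _
      rw [h4] at h3
      rw [Finset.sum_apply]
      rw [Pi.zero_apply] at h3 ⊢
      rw [← h3]
      refine sum_congr rfl fun i _ => ?_
      rw [Pi.smul_apply, smul_eq_mul, ← ha i]
    have h5 := Fintype.linearIndependent_iff.1 hli (fun i => algebraMap A ℂ (o i)) h2
    funext i
    have h6 := h5 i
    rw [Pi.zero_apply]
    have hinj : Function.Injective (algebraMap A ℂ) :=
      FaithfulSMul.algebraMap_injective A ℂ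
    exact hinj (by rw [h6, map_zero])
  have h7 := LinearMap.finrank_le_finrank_of_injective hinj
  rw [Module.finrank_fin_fun, hm] at h7
  exact h7

omit [Algebra A ℂ] in
lemma ix_powA {l : ℕ} (hl : (l : A) ≠ 0) (k : ℕ) :
    ix (Ideal.span {(l : A) ^ k}) = ix (Ideal.span {(l : A)}) ^ k := by
  induction k with
  | zero => rw [pow_zero, pow_zero, Ideal.span_singleton_one, ix_top]
  | succ k ih =>
    have h1 := ix_col_mul (l : A) (Ideal.span {(l : A) ^ (k + 1)})
    have h2 : col (l : A) (Ideal.span {(l : A) ^ (k + 1)}) = Ideal.span {(l : A) ^ k} := by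
      ext r
      rw [mem_col, Ideal.mem_span_singleton, Ideal.mem_span_singleton, pow_succ',
        mul_dvd_mul_iff_left hl]
    have h3 : Ideal.span {(l : A) ^ (k + 1)} ⊔ Ideal.span {(l : A)} = Ideal.span {(l : A)} := by
      rw [pow_succ']
      exact sup_eq_right.2 (span_mul_le _ _)
    rw [h2, h3, ih] at h1
    rw [← h1, pow_succ]

/-- **the `l`-adic uncertainty principle** over a principal ideal domain `A ⊆ ℂ` with finite
quotients `A / l ^ k` -/
theorem zeros_leA [IsPrincipalIdealRing A] [Module.IsTorsionFree A ℂ] [Finite G] {l : ℕ}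
    (hl : l.Prime) (hF : FinI A l) (hl1 : ix (Ideal.span {(l : A)}) ≠ 1)
    (hG : IsPGroup l G) (x : MonoidAlgebra A G) {c : ℕ} (hc : c ≠ 0) {d : A}
    (hcx : (c : A) = d * augA A G x) (Z : Finset (G →* ℂ)) (hZ : ∀ χ ∈ Z, evA χ x = 0) :
    (Z.card : ℝ) ≤ Nat.card G * (1 - ((l : ℝ)⁻¹) ^ (padicValNat l c)) := by
  have hF' : FinI (MonoidAlgebra A G) l := finIA hF
  have hl0 : ix (Ideal.span {(l : A)}) ≠ 0 := by
    have := hF 1
    rwa [pow_one] at this
  have hlA : (l : A) ≠ 0 := by
    intro h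
    have h1 := hF 1
    have hinj : Function.Injective (algebraMap A ℂ) := FaithfulSMul.algebraMap_injective A ℂ
    have h2 : (l : ℂ) = 0 := by
      have := congrArg (algebraMap A ℂ) h
      rwa [map_natCast, map_zero] at this
    exact hl.ne_zero (by exact_mod_cast h2)
  set L : ℝ := Real.log (ix (Ideal.span {(l : A)}) : ℝ) with hL
  have hLpos : 0 < L := by
    refine Real.log_pos ?_
    have : 1 < ix (Ideal.span {(l : A)}) := by omega
    exact_mod_cast this
  have hx : Ideal.span {x} ≤ RingHom.ker (PhiA (A := A) Z) := by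
    rw [Ideal.span_singleton_le_iff_mem, RingHom.mem_ker]
    funext χ
    exact hZ χ.1 χ.2
  set d' := finrank A (LinearMap.range (PhiA (A := A) Z).toLinearMap) with hd'
  have h1 : ∀ k : ℕ, cI l (RingHom.ker (PhiA (A := A) Z)) k = k * (d' * L) := by
    intro k
    unfold cI
    have h2 := ix_kerA (A := A) Z (l ^ k)
    rw [Nat.cast_pow, Nat.cast_pow, ix_powA hlA] at h2
    rw [h2, ← hd']
    push_cast
    rw [Real.log_pow, Real.log_pow]
    ring
  have h3 : ∀ n : ℕ, D l n (RingHom.ker (PhiA (A := A) Z)) =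
      (∑ k ∈ range n, ((l : ℝ)⁻¹) ^ k) * (d' * L) := by
    intro n
    unfold D
    rw [sum_mul]
    refine sum_congr rfl fun k _ => ?_
    rw [h1, h1]
    push_cast
    ring
  refine geo_limit (by positivity) (inv_lt_one_of_one_lt₀ (by exact_mod_cast hl.one_lt))
    fun n => ?_
  have h4 := (D_mono hF' hx n).trans (D_span_leA hl hF hG x hc hcx n)
  rw [h3] at h4
  have h5 : ((Z.card : ℝ)) ≤ d' := by exact_mod_cast rank_geA (A := A) Z
  have h7 : (0 : ℝ) ≤ ∑ k ∈ range n, ((l : ℝ)⁻¹) ^ k := sum_nonneg fun k _ => by positivity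
  refine le_of_mul_le_mul_right ?_ hLpos
  calc (Z.card : ℝ) * (∑ k ∈ range n, ((l : ℝ)⁻¹) ^ k) * L
      = (∑ k ∈ range n, ((l : ℝ)⁻¹) ^ k) * (Z.card * L) := by ring
    _ ≤ (∑ k ∈ range n, ((l : ℝ)⁻¹) ^ k) * (d' * L) :=
        mul_le_mul_of_nonneg_left (mul_le_mul_of_nonneg_right h5 hLpos.le) h7
    _ ≤ _ := h4
    _ = _ := by ring

end

end Pool.Agent.Y194.UP
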