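import Pool.Agent.Y194.UP.Ix

/-!
# The weighted count `D` and its behaviour when an element of order `l` is trivialised
-/

set_option autoImplicit false

namespace Pool.Agent.Y194.UP

open Finset

variable {R : Type*} [CommRing R]

/-- the logarithm of the index of `J + l ^ k R` -/
noncomputable def cI (l : ℕ) (J : Ideal R) (k : ℕ) : ℝ :=
  Real.log (ix (J ⊔ Ideal.span {(l : R) ^ k}) : ℝ)

/-- the weighted count -/
noncomputable def D (l n : ℕ) (J : Ideal R) : ℝ :=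
  ∑ k ∈ range n, ((l : ℝ)⁻¹) ^ k * (cI l J (k + 1) - cI l J k)

/-- the finiteness hypothesis -/
def FinI (R : Type*) [CommRing R] (l : ℕ) : Prop :=
  ∀ k : ℕ, ix (Ideal.span {(l : R) ^ k} : Ideal R) ≠ 0

lemma FinI.sup {l : ℕ} (h : FinI R l) (J : Ideal R) (k : ℕ) :
    ix (J ⊔ Ideal.span {(l : R) ^ k}) ≠ 0 := ix_ne_of_le le_sup_right (h k)

lemma FinI.pos {l : ℕ} (h : FinI R l) (J : Ideal R) (k : ℕ) :
    (0 : ℝ) < (ix (J ⊔ Ideal.span {(l : R) ^ k}) : ℝ) :=
  Nat.cast_pos.2 (Nat.pos_of_ne_zero (h.sup J k))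

lemma cI_zero (l : ℕ) (J : Ideal R) : cI l J 0 = 0 := by
  unfold cI
  rw [pow_zero, Ideal.span_singleton_one, sup_top_eq, ix_top]
  simp

lemma s_mono {l : ℕ} (h : FinI R l) {J J' : Ideal R} (hJ : J ≤ J') (k : ℕ) :
    cI l J k - cI l J' k ≤ cI l J (k + 1) - cI l J' (k + 1) := by
  have hA : J ⊔ Ideal.span {(l : R) ^ (k + 1)} ≤ J ⊔ Ideal.span {(l : R) ^ k} := by
    rw [pow_succ]
    exact sup_le_sup_left (span_mul_le _ _) _
  have h1 := ix_sub (C := J') hA (h.sup J (k + 1))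
  have e1 : J ⊔ Ideal.span {(l : R) ^ (k + 1)} ⊔ J' = J' ⊔ Ideal.span {(l : R) ^ (k + 1)} := by
    rw [sup_right_comm, sup_eq_right.2 hJ]
  have e2 : J ⊔ Ideal.span {(l : R) ^ k} ⊔ J' = J' ⊔ Ideal.span {(l : R) ^ k} := by
    rw [sup_right_comm, sup_eq_right.2 hJ]
  rw [e1, e2] at h1
  have h2 : ((ix (J ⊔ Ideal.span {(l : R) ^ k}) : ℝ)) * ix (J' ⊔ Ideal.span {(l : R) ^ (k + 1)}) ≤
      ix (J ⊔ Ideal.span {(l : R) ^ (k + 1)}) * ix (J' ⊔ Ideal.span {(l : R) ^ k}) := by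
    exact_mod_cast h1
  have h3 := Real.log_le_log (mul_pos (h.pos J k) (h.pos J' (k + 1))) h2
  rw [Real.log_mul (h.pos J k).ne' (h.pos J' (k + 1)).ne',
    Real.log_mul (h.pos J (k + 1)).ne' (h.pos J' k).ne'] at h3
  unfold cI
  linarith

lemma D_mono {l : ℕ} (h : FinI R l) {J J' : Ideal R} (hJ : J ≤ J') (n : ℕ) :
    D l n J' ≤ D l n J := by
  unfold D
  refine sum_le_sum fun k _ => ?_
  have h1 := s_mono h hJ k
  have h2 : (0 : ℝ) ≤ ((l : ℝ)⁻¹) ^ k := by positivity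
  nlinarith

lemma D_le {l : ℕ} (hl : 1 ≤ l) (h : FinI R l) {J J' : Ideal R} (hJ : J ≤ J') (n : ℕ) :
    D l n J ≤ D l n J' + (cI l J n - cI l J' n) := by
  induction n with
  | zero => simp [D, cI_zero]
  | succ n ih =>
    have h1 := s_mono h hJ n
    have h2 : ((l : ℝ)⁻¹) ^ n ≤ 1 := by
      refine pow_le_one₀ (by positivity) ?_
      rw [inv_le_one_iff₀]
      right
      exact_mod_cast hl
    have e1 : D l (n + 1) J = D l n J + ((l : ℝ)⁻¹) ^ n * (cI l J (n + 1) - cI l J n) := by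
      unfold D
      rw [sum_range_succ]
    have e2 : D l (n + 1) J' = D l n J' + ((l : ℝ)⁻¹) ^ n * (cI l J' (n + 1) - cI l J' n) := by
      unfold D
      rw [sum_range_succ]
    rw [e1, e2]
    have h3 : 0 ≤ (1 - ((l : ℝ)⁻¹) ^ n) *
        ((cI l J (n + 1) - cI l J' (n + 1)) - (cI l J n - cI l J' n)) :=
      mul_nonneg (by linarith) (by linarith)
    nlinarith

lemma cI_col {l : ℕ} (h : FinI R l) (I : Ideal R) (k : ℕ) :
    cI l (col (l : R) I) k = cI l I (k + 1) - cI l I 1 := by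
  have h1 := ix_col_mul (l : R) (I ⊔ Ideal.span {(l : R) ^ (k + 1)})
  rw [← col_sup] at h1
  have e1 : I ⊔ Ideal.span {(l : R) ^ (k + 1)} ⊔ Ideal.span {(l : R)} =
      I ⊔ Ideal.span {(l : R) ^ 1} := by
    rw [sup_assoc, pow_one, pow_succ']
    congr 1
    exact sup_eq_right.2 (span_mul_le (l : R) ((l : R) ^ k))
  rw [e1] at h1
  have h2 : ((ix (col (l : R) I ⊔ Ideal.span {(l : R) ^ k}) : ℝ)) *
      ix (I ⊔ Ideal.span {(l : R) ^ 1}) = ix (I ⊔ Ideal.span {(l : R) ^ (k + 1)}) := by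
    exact_mod_cast h1
  unfold cI
  rw [← h2, Real.log_mul (h.pos _ _).ne' (h.pos _ _).ne']
  ring

lemma D_succ {l : ℕ} (h : FinI R l) (I : Ideal R) (n : ℕ) :
    D l (n + 1) I = cI l I 1 + (l : ℝ)⁻¹ * D l n (col (l : R) I) := by
  unfold D
  rw [sum_range_succ', mul_sum, pow_zero, one_mul, cI_zero, sub_zero, add_comm]
  congr 1
  refine sum_congr rfl fun k _ => ?_
  rw [cI_col h, cI_col h, pow_succ']
  ring

/-- trivialising an element of order `l` divides the weighted count by at most `l` -/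
theorem step {l : ℕ} (hl : 1 ≤ l) (h : FinI R l) {X : R} (n : ℕ) : ∀ {I : Ideal R},
    X ^ l ∈ I ⊔ Ideal.span {(l : R) * X} → D l n I ≤ l * D l n (I ⊔ Ideal.span {X}) := by
  have hl0 : (0 : ℝ) < l := by exact_mod_cast hl
  induction n with
  | zero =>
    intro I _
    simp [D]
  | succ n ih =>
    intro I hX
    have hX' : X ^ l ∈ col (l : R) I ⊔ Ideal.span {(l : R) * X} := by
      have hc : I ⊔ Ideal.span {(l : R) * X} ≤ col (l : R) I ⊔ Ideal.span {(l : R) * X} :=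
        sup_le_sup_right (le_col (l : R) I) _
      exact hc hX
    have h1 := ih hX'
    obtain ⟨hK0, hK⟩ := key hl (by
      have := h.sup I 1
      rwa [pow_one] at this) hX
    set J : Ideal R := col (l : R) I ⊔ Ideal.span {X} with hJ
    set J' : Ideal R := col (l : R) (I ⊔ Ideal.span {X}) with hJ'
    have hJJ : J ≤ J' := by
      refine sup_le ?_ ?_
      · intro r hr
        exact Ideal.mem_sup_left hr
      · rw [Ideal.span_singleton_le_iff_mem, hJ', mem_col]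
        exact Ideal.mul_mem_left _ _ (Ideal.mem_sup_right (Ideal.mem_span_singleton_self _))
    have h2 := D_le hl h hJJ n
    have h3 : cI l J n - cI l J' n ≤ Real.log (rx J J' : ℝ) := by
      have e1 : rx (J ⊔ Ideal.span {(l : R) ^ n}) (J' ⊔ Ideal.span {(l : R) ^ n}) ≤ rx J J' := by
        have e2 : J' ⊔ Ideal.span {(l : R) ^ n} = (J ⊔ Ideal.span {(l : R) ^ n}) ⊔ J' := by
          rw [sup_right_comm, sup_eq_right.2 hJJ]
        rw [e2, rx_sup]
        exact rx_le_left le_sup_left hK0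
      have e3 := rx_mul_ix (sup_le_sup_right hJJ (Ideal.span {(l : R) ^ n}))
      have e4 : (ix (J ⊔ Ideal.span {(l : R) ^ n}) : ℝ) ≤
          (rx J J' : ℝ) * ix (J' ⊔ Ideal.span {(l : R) ^ n}) := by
        rw [← e3]
        push_cast
        exact mul_le_mul_of_nonneg_right (by exact_mod_cast e1) (by positivity)
      have e5 := Real.log_le_log (h.pos J n) e4
      rw [Real.log_mul (by exact_mod_cast hK0) (h.pos J' n).ne'] at e5
      unfold cI
      linarith
    have h4 : Real.log (rx J J' : ℝ) + cI l I 1 ≤ l * cI l (I ⊔ Ideal.span {X}) 1 := by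
      have e0 : I ⊔ Ideal.span {(l : R)} ⊔ Ideal.span {X} =
          I ⊔ Ideal.span {X} ⊔ Ideal.span {(l : R) ^ 1} := by
        rw [pow_one, sup_right_comm]
      rw [e0] at hK
      have e1 : ((rx J J' : ℝ)) * ix (I ⊔ Ideal.span {(l : R) ^ 1}) ≤
          (ix (I ⊔ Ideal.span {X} ⊔ Ideal.span {(l : R) ^ 1}) : ℝ) ^ l := by
        rw [pow_one (l : R)] at hK ⊢
        exact_mod_cast hK
      have hK0' : (rx J J' : ℝ) ≠ 0 := by exact_mod_cast hK0
      have e2 : (0 : ℝ) < rx J J' := lt_of_le_of_ne (by positivity) hK0'.symm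
      have e3 := Real.log_le_log (mul_pos e2 (h.pos I 1)) e1
      rw [Real.log_mul hK0' (h.pos I 1).ne', Real.log_pow] at e3
      exact e3
    rw [D_succ h, D_succ h]
    have h5 : (l : ℝ)⁻¹ * D l n (col (l : R) I) ≤ D l n J := by
      rw [inv_mul_le_iff₀ hl0]
      exact h1
    have h6 : (l : ℝ) * (cI l (I ⊔ Ideal.span {X}) 1 + (l : ℝ)⁻¹ * D l n J') =
        l * cI l (I ⊔ Ideal.span {X}) 1 + D l n J' := by
      field_simp
    rw [h6]
    linarith

end Pool.Agent.Y194.UP
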