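import Pool.Agent.Y194.UP.Dn

/-!
# Trivialising a whole finite abelian `l`-group
-/

set_option autoImplicit false

namespace Pool.Agent.Y194.UP

open Finset

variable {R : Type*} [CommRing R] {G : Type*} [CommGroup G]

/-- the elements of `G` acting trivially modulo an ideal -/
def stab (g : G →* R) (I : Ideal R) : Subgroup G where
  carrier := {a | g a - 1 ∈ I}
  mul_mem' := by
    intro a b ha hb
    have : g (a * b) - 1 = g a * (g b - 1) + (g a - 1) := by
      rw [map_mul]
      ring
    show g (a * b) - 1 ∈ I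
    rw [this]
    exact I.add_mem (I.mul_mem_left _ hb) ha
  one_mem' := by
    show g 1 - 1 ∈ I
    rw [map_one, sub_self]
    exact I.zero_mem
  inv_mem' := by
    intro a ha
    have h1 : g a⁻¹ * g a = 1 := by rw [← map_mul, inv_mul_cancel, map_one]
    have : g a⁻¹ - 1 = -(g a⁻¹ * (g a - 1)) := by
      rw [mul_sub, h1]
      ring
    show g a⁻¹ - 1 ∈ I
    rw [this]
    exact I.neg_mem (I.mul_mem_left _ ha)

lemma mem_stab {g : G →* R} {I : Ideal R} {a : G} : a ∈ stab g I ↔ g a - 1 ∈ I := Iff.rfl

/-- the augmentation ideal -/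
def Aug (g : G →* R) : Ideal R := Ideal.span (Set.range fun a => g a - 1)

lemma mem_Aug (g : G →* R) (a : G) : g a - 1 ∈ Aug g := Ideal.subset_span ⟨a, rfl⟩

lemma D_nonneg {l : ℕ} (h : FinI R l) (J : Ideal R) (n : ℕ) : 0 ≤ D l n J := by
  have h1 := D_mono h (le_top : J ≤ ⊤) n
  have h2 : D l n (⊤ : Ideal R) = 0 := by
    unfold D
    refine sum_eq_zero fun k _ => ?_
    have h3 : ∀ k : ℕ, cI l (⊤ : Ideal R) k = 0 := by
      intro k
      unfold cI
      rw [top_sup_eq, ix_top]
      simp
    rw [h3, h3, sub_zero, mul_zero]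
  linarith

theorem chain {l : ℕ} (hl : l.Prime) (h : FinI R l) [Finite G] (hG : IsPGroup l G) (g : G →* R)
    (n : ℕ) : ∀ (m : ℕ) (I : Ideal R), (stab g I).index ≤ m →
      D l n I ≤ (stab g I).index * D l n (I ⊔ Aug g) := by
  have : Fact l.Prime := ⟨hl⟩
  intro m
  induction m with
  | zero =>
    intro I hI
    exact absurd (Nat.le_zero.1 hI) (stab g I).index_ne_zero_of_finite
  | succ m ih =>
    intro I hI
    by_cases htop : stab g I = ⊤
    · have h1 : I ⊔ Aug g = I := by
        rw [sup_eq_left]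
        unfold Aug
        rw [Ideal.span_le]
        rintro _ ⟨a, rfl⟩
        have : a ∈ stab g I := by rw [htop]; exact Subgroup.mem_top a
        exact this
      rw [h1, htop, Subgroup.index_top, Nat.cast_one, one_mul]
    · -- an element of order `l` in the quotient
      have hQ : IsPGroup l (G ⧸ stab g I) := hG.to_quotient _
      have hidx : (stab g I).index ≠ 1 := fun h0 => htop (Subgroup.index_eq_one.1 h0)
      obtain ⟨e, he⟩ := (IsPGroup.iff_card (G := G ⧸ stab g I)).1 hQ
      have hcard : Nat.card (G ⧸ stab g I) = (stab g I).index := rfl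
      have he0 : e ≠ 0 := by
        rintro rfl
        rw [pow_zero] at he
        exact hidx (hcard ▸ he)
      have hdvd : l ∣ Nat.card (G ⧸ stab g I) := by
        rw [he]
        exact dvd_pow_self l he0
      obtain ⟨q, hq⟩ := exists_prime_orderOf_dvd_card' l hdvd
      obtain ⟨a, rfl⟩ := QuotientGroup.mk_surjective q
      have ha1 : a ∉ stab g I := by
        intro ha
        have : ((a : G) : G ⧸ stab g I) = 1 := (QuotientGroup.eq_one_iff a).2 ha
        rw [this, orderOf_one] at hq
        exact hl.one_lt.ne hq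
      have ha2 : a ^ l ∈ stab g I := by
        rw [← QuotientGroup.eq_one_iff, QuotientGroup.mk_pow]
        rw [← hq]
        exact pow_orderOf_eq_one _
      set X : R := g a - 1 with hX
      have hXl : X ^ l ∈ I ⊔ Ideal.span {(l : R) * X} := by
        obtain ⟨r, hr⟩ := exists_add_pow_prime_eq hl X 1
        have e1 : X + 1 = g a := by rw [hX]; ring
        rw [e1, ← map_pow, one_pow, mul_one] at hr
        have e2 : X ^ l = (g (a ^ l) - 1) + -(r * ((l : R) * X)) := by
          rw [hr]
          ring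
        rw [e2]
        exact Submodule.add_mem_sup ha2 ((Ideal.span {(l : R) * X}).neg_mem
          (Ideal.mem_span_singleton'.2 ⟨r, rfl⟩))
      have h1 := step hl.one_lt.le h n hXl
      set I' : Ideal R := I ⊔ Ideal.span {X} with hI'
      have hXI' : X ∈ I' := Ideal.mem_sup_right (Ideal.mem_span_singleton_self _)
      have hle : stab g I ≤ stab g I' := fun b hb => Ideal.mem_sup_left hb
      have haI' : a ∈ stab g I' := hXI'
      have h2 : I' ⊔ Aug g = I ⊔ Aug g := by
        rw [hI', sup_assoc]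
        congr 1
        rw [sup_eq_right, Ideal.span_singleton_le_iff_mem]
        exact mem_Aug g a
      have h3 := Subgroup.relIndex_mul_index hle
      have h4 : l ≤ (stab g I).relIndex (stab g I') := by
        have h5 : (stab g I).relIndex (stab g I') ∣ l ^ e := by
          rw [← he, hcard]
          exact ⟨_, h3.symm⟩
        obtain ⟨j, -, hj⟩ := (Nat.dvd_prime_pow hl).1 h5
        rw [hj]
        have hj0 : j ≠ 0 := by
          rintro rfl
          rw [pow_zero] at hj
          exact ha1 (Subgroup.relIndex_eq_one.1 hj haI')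
        exact Nat.le_self_pow hj0 l
      have hpos : 0 < (stab g I').index :=
        Nat.pos_of_ne_zero (stab g I').index_ne_zero_of_finite
      have h5 : l * (stab g I').index ≤ (stab g I).index := by
        rw [← h3]
        exact Nat.mul_le_mul_right _ h4
      have h6 : (stab g I').index ≤ m := by
        have : 2 * (stab g I').index ≤ m + 1 :=
          (Nat.mul_le_mul_right _ hl.two_le).trans (h5.trans hI)
        omega
      have h7 := ih I' h6
      rw [h2] at h7
      have h8 : (0 : ℝ) ≤ D l n (I ⊔ Aug g) := D_nonneg h _ n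
      have h9 : (l : ℝ) * (stab g I').index ≤ (stab g I).index := by exact_mod_cast h5
      calc D l n I ≤ l * D l n I' := h1
        _ ≤ l * ((stab g I').index * D l n (I ⊔ Aug g)) :=
          mul_le_mul_of_nonneg_left h7 (by positivity)
        _ = (l * (stab g I').index) * D l n (I ⊔ Aug g) := by ring
        _ ≤ (stab g I).index * D l n (I ⊔ Aug g) := mul_le_mul_of_nonneg_right h9 h8

theorem chain_card {l : ℕ} (hl : l.Prime) (h : FinI R l) [Finite G] (hG : IsPGroup l G)
    (g : G →* R) (n : ℕ) (I : Ideal R) :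
    D l n I ≤ Nat.card G * D l n (I ⊔ Aug g) := by
  have h1 := chain hl h hG g n _ I le_rfl
  have h2 : (stab g I).index ≤ Nat.card G :=
    Nat.le_of_dvd Nat.card_pos (stab g I).index_dvd_card
  have h3 : ((stab g I).index : ℝ) ≤ Nat.card G := by exact_mod_cast h2
  exact h1.trans (mul_le_mul_of_nonneg_right h3 (D_nonneg h _ n))

/-- the weighted count of an ideal containing an integer `c ≠ 0` -/
theorem D_int {l : ℕ} (hl : l.Prime) (h : FinI R l) {J : Ideal R} {c : ℕ} (hc : c ≠ 0)
    (hcJ : (c : R) ∈ J) (n : ℕ) :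
    D l n J ≤ (∑ k ∈ range (padicValNat l c), ((l : ℝ)⁻¹) ^ k) *
      Real.log (ix (J ⊔ Ideal.span {(l : R)}) : ℝ) := by
  have : Fact l.Prime := ⟨hl⟩
  set v := padicValNat l c with hv
  have hL : 0 ≤ Real.log (ix (J ⊔ Ideal.span {(l : R)}) : ℝ) := Real.log_natCast_nonneg _
  have hJl : ix (J ⊔ Ideal.span {(l : R)}) ≠ 0 := by
    have := h.sup J 1
    rwa [pow_one] at this
  have h1 : ∀ k : ℕ, cI l J (k + 1) - cI l J k ≤ Real.log (ix (J ⊔ Ideal.span {(l : R)}) : ℝ) := by
    intro k
    have e1 := rx_mul_le J ((l : R) ^ k) (l : R) hJl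
    rw [← pow_succ] at e1
    have e2 : J ⊔ Ideal.span {(l : R) ^ (k + 1)} ≤ J ⊔ Ideal.span {(l : R) ^ k} := by
      rw [pow_succ]
      exact sup_le_sup_left (span_mul_le _ _) _
    have e3 := rx_mul_ix e2
    have e4 : (ix (J ⊔ Ideal.span {(l : R) ^ (k + 1)}) : ℝ) ≤
        ix (J ⊔ Ideal.span {(l : R)}) * ix (J ⊔ Ideal.span {(l : R) ^ k}) := by
      rw [← e3]
      exact_mod_cast Nat.mul_le_mul_right _ e1
    have e5 := Real.log_le_log (h.pos J (k + 1)) e4
    rw [Real.log_mul (by exact_mod_cast hJl) (h.pos J k).ne'] at e5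
    unfold cI
    linarith
  have h2 : ∀ k : ℕ, v ≤ k → cI l J (k + 1) - cI l J k = 0 := by
    intro k hk
    obtain ⟨c', hc'⟩ : l ^ v ∣ c := pow_padicValNat_dvd
    have hc'l : Nat.Coprime c' l := by
      rw [Nat.coprime_comm, hl.coprime_iff_not_dvd]
      rintro ⟨d, rfl⟩
      have : l ^ (v + 1) ∣ c := ⟨d, by rw [hc', pow_succ]; ring⟩
      exact pow_succ_padicValNat_not_dvd hc this
    have hcop : IsCoprime ((c' : ℤ)) ((l : ℤ) ^ (k + 1 - v)) := by
      refine IsCoprime.pow_right ?_
      exact Nat.isCoprime_iff_coprime.2 hc'l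
    obtain ⟨a, b, hab⟩ := hcop
    have e1 : ((l : ℤ) ^ k) = (a * l ^ (k - v)) * c + (b * l ^ (k - v)) * l ^ (k + 1) := by
      have e2 : (l : ℤ) ^ k = l ^ v * l ^ (k - v) := by rw [← pow_add]; congr 1; omega
      have e3 : (l : ℤ) ^ (k + 1) = l ^ v * l ^ (k + 1 - v) := by rw [← pow_add]; congr 1; omega
      have e4 : (c : ℤ) = l ^ v * c' := by rw [hc']; push_cast; ring
      rw [e2, e3, e4]
      have : (l : ℤ) ^ v * l ^ (k - v) = l ^ v * l ^ (k - v) * (a * c' + b * l ^ (k + 1 - v)) := by
        rw [hab, mul_one]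
      rw [this]
      ring
    have e5 : J ⊔ Ideal.span {(l : R) ^ (k + 1)} = J ⊔ Ideal.span {(l : R) ^ k} := by
      refine le_antisymm ?_ (sup_le le_sup_left ?_)
      · rw [pow_succ]
        exact sup_le_sup_left (span_mul_le _ _) _
      · rw [Ideal.span_singleton_le_iff_mem]
        have e6 : ((l : R) ^ k) = ((a * l ^ (k - v) : ℤ) : R) * (c : R) +
            ((b * l ^ (k - v) : ℤ) : R) * (l : R) ^ (k + 1) := by
          have := congrArg (Int.cast : ℤ → R) e1
          push_cast at this ⊢
          exact this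
        rw [e6]
        exact Submodule.add_mem_sup (J.mul_mem_left _ hcJ)
          (Ideal.mul_mem_left _ _ (Ideal.mem_span_singleton_self _))
    unfold cI
    rw [e5, sub_self]
  have h3 : ∀ k : ℕ, ((l : ℝ)⁻¹) ^ k * (cI l J (k + 1) - cI l J k) ≤
      if k < v then ((l : ℝ)⁻¹) ^ k * Real.log (ix (J ⊔ Ideal.span {(l : R)}) : ℝ) else 0 := by
    intro k
    split_ifs with hk
    · exact mul_le_mul_of_nonneg_left (h1 k) (by positivity)
    · rw [h2 k (not_lt.1 hk), mul_zero]
  calc D l n J ≤ ∑ k ∈ range n, (if k < v then ((l : ℝ)⁻¹) ^ k *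
        Real.log (ix (J ⊔ Ideal.span {(l : R)}) : ℝ) else 0) := sum_le_sum fun k _ => h3 k
    _ ≤ ∑ k ∈ range (max n v), (if k < v then ((l : ℝ)⁻¹) ^ k *
        Real.log (ix (J ⊔ Ideal.span {(l : R)}) : ℝ) else 0) := by
        refine sum_le_sum_of_subset_of_nonneg (range_subset_range.2 (le_max_left _ _)) ?_
        intro k _ _
        split_ifs
        · positivity
        · exact le_rfl
    _ = ∑ k ∈ range v, ((l : ℝ)⁻¹) ^ k * Real.log (ix (J ⊔ Ideal.span {(l : R)}) : ℝ) := by
        rw [← sum_filter]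
        refine sum_congr ?_ fun _ _ => rfl
        ext k
        simp only [mem_filter, mem_range]
        constructor
        · exact fun hk => hk.2
        · exact fun hk => ⟨lt_of_lt_of_le hk (le_max_right _ _), hk⟩
    _ = _ := by rw [sum_mul]

end Pool.Agent.Y194.UP
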