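import Mathlib

/-!
# Indices of ideals, the weighted count `D`, and the basic inequality
-/

set_option autoImplicit false

namespace Pool.Agent.Y194.UP

open Finset

variable {R : Type*} [CommRing R]

/-- the index of an ideal (0 if infinite) -/
noncomputable def ix (J : Ideal R) : ℕ := J.toAddSubgroup.index

/-- the relative index of two ideals -/
noncomputable def rx (J K : Ideal R) : ℕ := J.toAddSubgroup.relIndex K.toAddSubgroup

lemma toA_le {J K : Ideal R} (h : J ≤ K) : J.toAddSubgroup ≤ K.toAddSubgroup :=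
  Submodule.toAddSubgroup_mono h

lemma rx_mul_ix {J K : Ideal R} (h : J ≤ K) : rx J K * ix K = ix J :=
  AddSubgroup.relIndex_mul_index (toA_le h)

lemma rx_mul_rx {J K L : Ideal R} (h : J ≤ K) (h' : K ≤ L) : rx J K * rx K L = rx J L :=
  AddSubgroup.relIndex_mul_relIndex _ _ _ (toA_le h) (toA_le h')

lemma rx_sup (J K : Ideal R) : rx J (J ⊔ K) = rx J K := by
  unfold rx
  rw [sup_comm, Submodule.sup_toAddSubgroup, AddSubgroup.relIndex_sup_right]

lemma ix_top : ix (⊤ : Ideal R) = 1 := by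
  unfold ix
  rw [Submodule.top_toAddSubgroup, AddSubgroup.index_top]

lemma ix_ne_of_le {J K : Ideal R} (h : J ≤ K) (hJ : ix J ≠ 0) : ix K ≠ 0 := by
  intro h0
  apply hJ
  rw [← rx_mul_ix h, h0, mul_zero]

lemma ix_le_of_le {J K : Ideal R} (h : J ≤ K) (hJ : ix J ≠ 0) : ix K ≤ ix J :=
  Nat.le_of_dvd (Nat.pos_of_ne_zero hJ) ⟨rx J K, by rw [mul_comm, rx_mul_ix h]⟩

lemma rx_ne_of_ix {J K : Ideal R} (hJ : ix J ≠ 0) : rx J K ≠ 0 := by
  have h1 := rx_mul_ix (J := J) (K := J ⊔ K) le_sup_left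
  rw [rx_sup] at h1
  intro h0
  rw [h0, zero_mul] at h1
  exact hJ h1.symm

lemma rx_le_left {J K L : Ideal R} (h : J ≤ K) (h0 : rx J L ≠ 0) : rx K L ≤ rx J L :=
  AddSubgroup.relIndex_le_of_le_left (toA_le h) h0

lemma ix_sub {A B C : Ideal R} (h : A ≤ B) (hA : ix A ≠ 0) :
    ix B * ix (A ⊔ C) ≤ ix A * ix (B ⊔ C) := by
  have h1 : ix A = rx A C * ix (A ⊔ C) := by
    rw [← rx_sup, rx_mul_ix le_sup_left]
  have h2 : ix B = rx B C * ix (B ⊔ C) := by
    rw [← rx_sup, rx_mul_ix le_sup_left]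
  have h3 : rx B C ≤ rx A C := rx_le_left h (rx_ne_of_ix hA)
  calc ix B * ix (A ⊔ C) = rx B C * (ix (B ⊔ C) * ix (A ⊔ C)) := by rw [h2]; ring
    _ ≤ rx A C * (ix (B ⊔ C) * ix (A ⊔ C)) := Nat.mul_le_mul_right _ h3
    _ = ix A * ix (B ⊔ C) := by rw [h1]; ring

/-- the colon ideal -/
def col (y : R) (I : Ideal R) : Ideal R := Submodule.comap (LinearMap.mulLeft R y) I

lemma mem_col {y r : R} {I : Ideal R} : r ∈ col y I ↔ y * r ∈ I := Iff.rfl

lemma le_col (y : R) (I : Ideal R) : I ≤ col y I := fun _ hr => I.mul_mem_left y hr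

lemma ix_col (y : R) (J : Ideal R) : ix (col y J) = rx J (Ideal.span {y}) := by
  have h1 : (col y J).toAddSubgroup = J.toAddSubgroup.comap (AddMonoidHom.mulLeft y) := rfl
  have h2 : (AddMonoidHom.mulLeft y : R →+ R).range = (Ideal.span {y}).toAddSubgroup := by
    ext r
    simp only [AddMonoidHom.mem_range, AddMonoidHom.coe_mulLeft, Submodule.mem_toAddSubgroup,
      Ideal.mem_span_singleton']
    constructor
    · rintro ⟨a, rfl⟩
      exact ⟨a, mul_comm _ _⟩
    · rintro ⟨a, rfl⟩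
      exact ⟨a, mul_comm _ _⟩
  unfold ix rx
  rw [h1, AddSubgroup.index_comap, h2]

lemma ix_col_mul (y : R) (J : Ideal R) : ix (col y J) * ix (J ⊔ Ideal.span {y}) = ix J := by
  rw [ix_col, ← rx_sup, rx_mul_ix le_sup_left]

lemma span_mul_le (y z : R) : Ideal.span {y * z} ≤ Ideal.span {y} := by
  rw [Ideal.span_singleton_le_span_singleton]
  exact dvd_mul_right _ _

lemma rx_mul_le (J : Ideal R) (y z : R) (h : ix (J ⊔ Ideal.span {z}) ≠ 0) :
    rx (J ⊔ Ideal.span {y * z}) (J ⊔ Ideal.span {y}) ≤ ix (J ⊔ Ideal.span {z}) := by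
  have h1 : rx (J ⊔ Ideal.span {y * z}) (J ⊔ Ideal.span {y}) =
      ix (col y (J ⊔ Ideal.span {y * z})) := by
    rw [ix_col, ← rx_sup (J ⊔ Ideal.span {y * z}) (Ideal.span {y})]
    congr 1
    rw [sup_assoc, sup_eq_right.2 (span_mul_le y z)]
  rw [h1]
  refine ix_le_of_le (sup_le ?_ ?_) h
  · exact le_sup_left.trans (le_col _ _)
  · rw [Ideal.span_singleton_le_iff_mem, mem_col]
    exact Ideal.mem_sup_right (Ideal.mem_span_singleton_self _)

lemma col_sup (l : R) (I : Ideal R) (k : ℕ) :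
    col l I ⊔ Ideal.span {l ^ k} = col l (I ⊔ Ideal.span {l ^ (k + 1)}) := by
  refine le_antisymm (sup_le ?_ ?_) ?_
  · intro r hr
    exact Ideal.mem_sup_left hr
  · rw [Ideal.span_singleton_le_iff_mem, mem_col, ← pow_succ']
    exact Ideal.mem_sup_right (Ideal.mem_span_singleton_self _)
  · intro r hr
    rw [mem_col, Submodule.mem_sup] at hr
    obtain ⟨i, hi, j, hj, hij⟩ := hr
    obtain ⟨b, rfl⟩ := Ideal.mem_span_singleton'.1 hj
    have h1 : r - b * l ^ k ∈ col l I := by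
      rw [mem_col]
      have : l * (r - b * l ^ k) = i := by
        rw [mul_sub, ← hij]
        ring
      rw [this]
      exact hi
    have h2 : b * l ^ k ∈ Ideal.span {l ^ k} := Ideal.mem_span_singleton'.2 ⟨b, rfl⟩
    have h3 := Submodule.add_mem_sup h1 h2
    rwa [sub_add_cancel] at h3

/-- the basic inequality, multiplicative form -/
lemma key {l : ℕ} (hl : 1 ≤ l) {I : Ideal R} {X : R}
    (hB : ix (I ⊔ Ideal.span {(l : R)}) ≠ 0)
    (hX : X ^ l ∈ I ⊔ Ideal.span {(l : R) * X}) :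
    rx (col (l : R) I ⊔ Ideal.span {X}) (col (l : R) (I ⊔ Ideal.span {X})) ≠ 0 ∧
    rx (col (l : R) I ⊔ Ideal.span {X}) (col (l : R) (I ⊔ Ideal.span {X})) *
      ix (I ⊔ Ideal.span {(l : R)}) ≤ ix (I ⊔ Ideal.span {(l : R)} ⊔ Ideal.span {X}) ^ l := by
  set B : Ideal R := I ⊔ Ideal.span {(l : R)} with hBd
  set p : ℕ := ix (B ⊔ Ideal.span {X}) with hp
  set J : Ideal R := col (l : R) I ⊔ Ideal.span {X} with hJ
  set J' : Ideal R := col (l : R) (I ⊔ Ideal.span {X}) with hJ'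
  obtain ⟨i', hi', s', hs', hXs⟩ := Submodule.mem_sup.1 hX
  obtain ⟨s, rfl⟩ := Ideal.mem_span_singleton'.1 hs'
  have hXB : X ^ l ∈ B := by
    rw [← hXs]
    refine Submodule.add_mem_sup hi' ?_
    exact Ideal.mem_span_singleton'.2 ⟨s * X, by ring⟩
  have hsup : ∀ K : Ideal R, ix (B ⊔ K) ≠ 0 := fun K => ix_ne_of_le le_sup_left hB
  -- powers
  have hpow : ∀ j : ℕ, ix (B ⊔ Ideal.span {X ^ j}) ≤ p ^ j := by
    intro j
    induction j with
    | zero =>
      rw [pow_zero, pow_zero, Ideal.span_singleton_one, sup_top_eq, ix_top]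
    | succ j ih =>
      have h1 := rx_mul_le B (X ^ j) X (hsup _)
      rw [← pow_succ] at h1
      have h2 : B ⊔ Ideal.span {X ^ (j + 1)} ≤ B ⊔ Ideal.span {X ^ j} := by
        rw [pow_succ]
        exact sup_le_sup_left (span_mul_le _ _) _
      rw [← rx_mul_ix h2, pow_succ' p j]
      exact Nat.mul_le_mul h1 ih
  have hcol : B ⊔ Ideal.span {X ^ (l - 1)} ≤ col X B := by
    refine sup_le (le_col _ _) ?_
    rw [Ideal.span_singleton_le_iff_mem, mem_col, ← pow_succ', Nat.sub_add_cancel hl]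
    exact hXB
  have h3 : rx B (col X B) = p := by
    have e1 := rx_mul_ix (le_col X B)
    have e2 := ix_col_mul X B
    have e3 : ix (col X B) ≠ 0 := ix_ne_of_le (le_col X B) hB
    have e4 : rx B (col X B) * ix (col X B) = p * ix (col X B) := by
      rw [e1, hp, mul_comm, e2]
    exact Nat.eq_of_mul_eq_mul_right (Nat.pos_of_ne_zero e3) e4
  have h4 : rx B (B ⊔ Ideal.span {X ^ (l - 1)}) * rx (B ⊔ Ideal.span {X ^ (l - 1)}) (col X B) = p := by
    rw [rx_mul_rx le_sup_left hcol, h3]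
  -- the correspondence
  let P : AddSubgroup (R × R) :=
    { carrier := {z | X * z.1 - l * z.2 ∈ I}
      add_mem' := by
        intro a b ha hb
        have : X * (a + b).1 - l * (a + b).2 = (X * a.1 - l * a.2) + (X * b.1 - l * b.2) := by
          simp only [Prod.fst_add, Prod.snd_add]
          ring
        show X * (a + b).1 - l * (a + b).2 ∈ I
        rw [this]
        exact I.add_mem ha hb
      zero_mem' := by
        show X * (0 : R) - l * (0 : R) ∈ I
        simp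
      neg_mem' := by
        intro a ha
        have : X * (-a).1 - l * (-a).2 = -(X * a.1 - l * a.2) := by
          simp only [Prod.fst_neg, Prod.snd_neg]
          ring
        show X * (-a).1 - l * (-a).2 ∈ I
        rw [this]
        exact I.neg_mem ha }
  have hPm : ∀ z : R × R, z ∈ P ↔ X * z.1 - l * z.2 ∈ I := fun z => Iff.rfl
  let p1 : P →+ R := (AddMonoidHom.fst R R).comp P.subtype
  let p2 : P →+ R := (AddMonoidHom.snd R R).comp P.subtype
  have hr1 : p1.range = (col X B).toAddSubgroup := by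
    ext b
    rw [AddMonoidHom.mem_range]
    constructor
    · rintro ⟨⟨z, hz⟩, rfl⟩
      rw [hPm] at hz
      show X * z.1 ∈ B
      have : X * z.1 = (X * z.1 - l * z.2) + l * z.2 := by ring
      rw [this]
      exact Submodule.add_mem_sup hz (Ideal.mem_span_singleton'.2 ⟨z.2, by ring⟩)
    · intro hb
      have hb' : X * b ∈ B := hb
      obtain ⟨i, hi, j, hj, hij⟩ := Submodule.mem_sup.1 hb'
      obtain ⟨c, rfl⟩ := Ideal.mem_span_singleton'.1 hj
      refine ⟨⟨(b, c), ?_⟩, rfl⟩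
      rw [hPm]
      have : X * b - l * c = i := by rw [← hij]; ring
      show X * b - l * c ∈ I
      rw [this]
      exact hi
  have hr2 : p2.range = J'.toAddSubgroup := by
    ext r
    rw [AddMonoidHom.mem_range]
    constructor
    · rintro ⟨⟨z, hz⟩, rfl⟩
      rw [hPm] at hz
      show (l : R) * z.2 ∈ I ⊔ Ideal.span {X}
      have : (l : R) * z.2 = -(X * z.1 - l * z.2) + X * z.1 := by ring
      rw [this]
      exact Submodule.add_mem_sup (I.neg_mem hz) (Ideal.mem_span_singleton'.2 ⟨z.1, by ring⟩)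
    · intro hr
      have hr' : (l : R) * r ∈ I ⊔ Ideal.span {X} := hr
      obtain ⟨i, hi, j, hj, hij⟩ := Submodule.mem_sup.1 hr'
      obtain ⟨b, rfl⟩ := Ideal.mem_span_singleton'.1 hj
      refine ⟨⟨(b, r), ?_⟩, rfl⟩
      rw [hPm]
      have : X * b - l * r = -i := by rw [← hij]; ring
      show X * b - l * r ∈ I
      rw [this]
      exact I.neg_mem hi
  have hle : ((B ⊔ Ideal.span {X ^ (l - 1)}).toAddSubgroup).comap p1 ≤
      (J.toAddSubgroup).comap p2 := by
    rintro ⟨z, hz⟩ hz1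
    rw [hPm] at hz
    have hz1' : z.1 ∈ B ⊔ Ideal.span {X ^ (l - 1)} := hz1
    obtain ⟨b0, hb0, e', he', hbe⟩ := Submodule.mem_sup.1 hz1'
    obtain ⟨e, rfl⟩ := Ideal.mem_span_singleton'.1 he'
    obtain ⟨i, hi, c', hc', hic⟩ := Submodule.mem_sup.1 hb0
    obtain ⟨c, rfl⟩ := Ideal.mem_span_singleton'.1 hc'
    show z.2 ∈ J
    have hXX : X * X ^ (l - 1) = X ^ l := by rw [← pow_succ', Nat.sub_add_cancel hl]
    have h5 : z.2 - X * (c + s * e) ∈ col (l : R) I := by
      rw [mem_col]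
      have : (l : R) * (z.2 - X * (c + s * e)) =
          -(X * z.1 - l * z.2) + (X * i + e * i') := by
        have e1 : X * z.1 = X * i + X * (c * l) + e * X ^ l := by
          rw [← hbe, ← hic, ← hXX]
          ring
        rw [e1, ← hXs]
        ring
      rw [this]
      exact I.add_mem (I.neg_mem hz) (I.add_mem (I.mul_mem_left _ hi) (I.mul_mem_left _ hi'))
    have h6 : X * (c + s * e) ∈ Ideal.span {X} := Ideal.mem_span_singleton'.2 ⟨_, mul_comm _ _⟩
    have h7 := Submodule.add_mem_sup h5 h6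
    rwa [sub_add_cancel] at h7
  have h8 : (((B ⊔ Ideal.span {X ^ (l - 1)}).toAddSubgroup).comap p1).index =
      rx (B ⊔ Ideal.span {X ^ (l - 1)}) (col X B) := by
    rw [AddSubgroup.index_comap, hr1]
    rfl
  have h9 : ((J.toAddSubgroup).comap p2).index = rx J J' := by
    rw [AddSubgroup.index_comap, hr2]
    rfl
  have h10 : rx (B ⊔ Ideal.span {X ^ (l - 1)}) (col X B) ≠ 0 := rx_ne_of_ix (hsup _)
  have h11 : rx J J' ∣ rx (B ⊔ Ideal.span {X ^ (l - 1)}) (col X B) := by
    rw [← h8, ← h9]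
    exact AddSubgroup.index_dvd_of_le hle
  have h12 : rx J J' ≠ 0 := fun h0 => h10 (Nat.eq_zero_of_zero_dvd (h0 ▸ h11))
  refine ⟨h12, ?_⟩
  have h13 : rx J J' ≤ rx (B ⊔ Ideal.span {X ^ (l - 1)}) (col X B) :=
    Nat.le_of_dvd (Nat.pos_of_ne_zero h10) h11
  have h14 : ix B = rx B (B ⊔ Ideal.span {X ^ (l - 1)}) * ix (B ⊔ Ideal.span {X ^ (l - 1)}) :=
    (rx_mul_ix le_sup_left).symm
  calc rx J J' * ix B
      ≤ rx (B ⊔ Ideal.span {X ^ (l - 1)}) (col X B) *
        (rx B (B ⊔ Ideal.span {X ^ (l - 1)}) * p ^ (l - 1)) := by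
        rw [h14]
        exact Nat.mul_le_mul h13 (Nat.mul_le_mul_left _ (hpow _))
    _ = (rx B (B ⊔ Ideal.span {X ^ (l - 1)}) * rx (B ⊔ Ideal.span {X ^ (l - 1)}) (col X B)) *
        p ^ (l - 1) := by ring
    _ = p ^ l := by rw [h4, ← pow_succ', Nat.sub_add_cancel hl]

end Pool.Agent.Y194.UP
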