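import Pool.Agent.Y194.UP.Grp

/-!
# The number of characters at which an element of the group ring of an `l`-group vanishes
-/

set_option autoImplicit false

namespace Pool.Agent.Y194.UP

open Finset Module Filter Topology
open scoped NumberField

/-- the ideal generated by a natural number -/
lemma span_nat {R : Type*} [CommRing R] (n : ℕ) :
    (Ideal.span {(n : R)}).toAddSubgroup = (nsmulAddMonoidHom (α := R) n).range := by
  ext r
  simp only [Submodule.mem_toAddSubgroup, Ideal.mem_span_singleton', AddMonoidHom.mem_range,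
    nsmulAddMonoidHom_apply, nsmul_eq_mul]
  constructor
  · rintro ⟨a, rfl⟩
    exact ⟨a, mul_comm _ _⟩
  · rintro ⟨a, rfl⟩
    exact ⟨a, mul_comm _ _⟩

lemma ix_nat {R : Type*} [CommRing R] [Module.Free ℤ R] [Module.Finite ℤ R] (n : ℕ) :
    ix (Ideal.span {(n : R)} : Ideal R) = n ^ finrank ℤ R := by
  unfold ix
  rw [span_nat, AddSubgroup.index_range_nsmul]

lemma finI {R : Type*} [CommRing R] [Module.Free ℤ R] [Module.Finite ℤ R] {l : ℕ} (hl : l ≠ 0) :
    FinI R l := by
  intro k
  have h := ix_nat (R := R) (l ^ k)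
  push_cast at h
  rw [h]
  exact pow_ne_zero _ (pow_ne_zero _ hl)

lemma ix_comap {R S : Type*} [CommRing R] [CommRing S] (f : R →+* S) (hf : Function.Surjective f)
    (J : Ideal S) : ix (Ideal.comap f J) = ix J := by
  unfold ix
  have e : (Ideal.comap f J).toAddSubgroup = J.toAddSubgroup.comap f.toAddMonoidHom := rfl
  rw [e]
  exact AddSubgroup.index_comap_of_surjective _ hf

/-- the index of `ker Φ + n R` for a ring homomorphism to a torsion-free ring -/
lemma ix_ker {R S : Type*} [CommRing R] [CommRing S] [Module.Finite ℤ R]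
    [Module.IsTorsionFree ℤ S] (Φ : R →+* S) (n : ℕ) :
    ix (RingHom.ker Φ ⊔ Ideal.span {(n : R)}) =
      n ^ finrank ℤ (LinearMap.range Φ.toAddMonoidHom.toIntLinearMap) := by
  set M := LinearMap.range Φ.toAddMonoidHom.toIntLinearMap with hM
  let f : R →+ M := Φ.toAddMonoidHom.toIntLinearMap.rangeRestrict.toAddMonoidHom
  have hf : Function.Surjective f := LinearMap.surjective_rangeRestrict _
  have hfv : ∀ r : R, ((f r : M) : S) = Φ r := fun r => rfl
  have h1 : (RingHom.ker Φ ⊔ Ideal.span {(n : R)}).toAddSubgroup =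
      ((nsmulAddMonoidHom (α := M) n).range).comap f := by
    ext r
    simp only [Submodule.mem_toAddSubgroup, AddSubgroup.mem_comap, AddMonoidHom.mem_range,
      nsmulAddMonoidHom_apply]
    constructor
    · intro hr
      obtain ⟨a, ha, b', hb', hab⟩ := Submodule.mem_sup.1 hr
      obtain ⟨b, rfl⟩ := Ideal.mem_span_singleton'.1 hb'
      refine ⟨f b, ?_⟩
      apply Subtype.ext
      rw [← map_nsmul, hfv, hfv, ← hab, map_add, (RingHom.mem_ker).1 ha, zero_add]
      congr 1
      rw [nsmul_eq_mul, mul_comm]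
    · rintro ⟨m, hm⟩
      obtain ⟨b, rfl⟩ := hf m
      have h2 := congrArg (Subtype.val) hm
      rw [← map_nsmul, hfv, hfv, nsmul_eq_mul] at h2
      have h3 : r - (n : R) * b ∈ RingHom.ker Φ := by
        rw [RingHom.mem_ker, map_sub, h2, sub_self]
      have h4 : (n : R) * b ∈ Ideal.span {(n : R)} :=
        Ideal.mem_span_singleton'.2 ⟨b, mul_comm _ _⟩
      have h5 := Submodule.add_mem_sup h3 h4
      rwa [sub_add_cancel] at h5
  unfold ix
  rw [h1, AddSubgroup.index_comap_of_surjective _ hf, AddSubgroup.index_range_nsmul]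

section
variable {K : Type*} [Field K] (σ : K →+* ℂ) {G : Type*} [CommGroup G]

/-- evaluation of an element of the group ring at a character -/
noncomputable def ev (χ : G →* ℂ) : MonoidAlgebra (𝓞 K) G →+* ℂ :=
  MonoidAlgebra.liftNCRingHom (σ.comp (algebraMap (𝓞 K) K)) χ (fun _ _ => Commute.all _ _)

lemma ev_single (χ : G →* ℂ) (a : G) (b : 𝓞 K) :
    ev σ χ (MonoidAlgebra.single a b) = σ b * χ a :=
  MonoidAlgebra.liftNCRingHom_single _ _ _ _ _

variable (K G) in
/-- the augmentation -/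
noncomputable def aug : MonoidAlgebra (𝓞 K) G →+* 𝓞 K :=
  MonoidAlgebra.liftNCRingHom (RingHom.id (𝓞 K)) (1 : G →* 𝓞 K) (fun _ _ => Commute.all _ _)

lemma aug_single (a : G) (b : 𝓞 K) : aug K G (MonoidAlgebra.single a b) = b := by
  unfold aug
  rw [MonoidAlgebra.liftNCRingHom_single]
  simp

instance instFree [NumberField K] : Module.Free ℤ (MonoidAlgebra (𝓞 K) G) :=
  Module.Free.of_equiv (MonoidAlgebra.coeffLinearEquiv (M := G) (S := 𝓞 K) ℤ).symm

instance instFin [NumberField K] [Finite G] : Module.Finite ℤ (MonoidAlgebra (𝓞 K) G) :=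
  Module.Finite.equiv (MonoidAlgebra.coeffLinearEquiv (M := G) (S := 𝓞 K) ℤ).symm

variable (K G) in
/-- the group elements -/
noncomputable def gg : G →* MonoidAlgebra (𝓞 K) G := MonoidAlgebra.of (𝓞 K) G

lemma sub_aug_mem (r : MonoidAlgebra (𝓞 K) G) :
    r - MonoidAlgebra.single 1 (aug K G r) ∈ Aug (gg K G) := by
  induction r using MonoidAlgebra.induction_linear with
  | zero =>
    rw [map_zero, MonoidAlgebra.single_zero, sub_zero]
    exact Ideal.zero_mem _
  | add f g hf hg =>
    rw [map_add, MonoidAlgebra.single_add, add_sub_add_comm]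
    exact Ideal.add_mem _ hf hg
  | single a b =>
    rw [aug_single]
    have h1 : MonoidAlgebra.single a b - MonoidAlgebra.single (1 : G) b =
        MonoidAlgebra.single (1 : G) b * (gg K G a - 1) := by
      unfold gg
      rw [mul_sub, mul_one, MonoidAlgebra.of_apply, MonoidAlgebra.single_mul_single, one_mul,
        mul_one]
    rw [h1]
    exact Ideal.mul_mem_left _ _ (mem_Aug _ a)

/-- the index of the augmentation ideal plus `l` -/
lemma ix_Aug [NumberField K] [Finite G] (J : Ideal (MonoidAlgebra (𝓞 K) G))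
    (hJ : Aug (gg K G) ≤ J) {l : ℕ} (hl : l ≠ 0) :
    ix (J ⊔ Ideal.span {(l : MonoidAlgebra (𝓞 K) G)}) ≤ l ^ finrank ℤ (𝓞 K) := by
  have hs : Function.Surjective (aug K G) := fun b =>
    ⟨MonoidAlgebra.single 1 b, aug_single _ _⟩
  have h1 : ix (Ideal.comap (aug K G) (Ideal.span {(l : 𝓞 K)})) = l ^ finrank ℤ (𝓞 K) := by
    rw [ix_comap _ hs, ix_nat]
  rw [← h1]
  refine ix_le_of_le ?_ (by rw [h1]; exact pow_ne_zero _ hl)
  intro r hr
  rw [Ideal.mem_comap] at hr
  obtain ⟨b, hb⟩ := Ideal.mem_span_singleton'.1 hr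
  have h2 := sub_aug_mem r
  have h3 : MonoidAlgebra.single (1 : G) (aug K G r) ∈
      Ideal.span {(l : MonoidAlgebra (𝓞 K) G)} := by
    rw [Ideal.mem_span_singleton']
    refine ⟨MonoidAlgebra.single 1 b, ?_⟩
    have h4 : (l : MonoidAlgebra (𝓞 K) G) = MonoidAlgebra.single (1 : G) (l : 𝓞 K) := by
      rw [MonoidAlgebra.natCast_def]
    rw [h4, MonoidAlgebra.single_mul_single, one_mul, hb]
  have h5 := Submodule.add_mem_sup (hJ h2) h3
  rwa [sub_add_cancel] at h5

/-- the upper bound for the weighted count of a principal ideal -/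
theorem D_span_le [NumberField K] [Finite G] {l : ℕ} (hl : l.Prime) (hG : IsPGroup l G)
    (x : MonoidAlgebra (𝓞 K) G) {c : ℕ} (hc : c ≠ 0) {d : 𝓞 K} (hcx : (c : 𝓞 K) = d * aug K G x)
    (n : ℕ) : D l n (Ideal.span {x}) ≤ Nat.card G *
      ((∑ k ∈ range (padicValNat l c), ((l : ℝ)⁻¹) ^ k) * (finrank ℤ (𝓞 K) * Real.log l)) := by
  have hF : FinI (MonoidAlgebra (𝓞 K) G) l := finI hl.ne_zero
  refine (chain_card hl hF hG (gg K G) n _).trans ?_
  refine mul_le_mul_of_nonneg_left ?_ (by positivity)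
  set J := Ideal.span {x} ⊔ Aug (gg K G) with hJ
  have hcJ : (c : MonoidAlgebra (𝓞 K) G) ∈ J := by
    have h4 : (c : MonoidAlgebra (𝓞 K) G) = MonoidAlgebra.single (1 : G) (c : 𝓞 K) := by
      rw [MonoidAlgebra.natCast_def]
    have h5 : (c : MonoidAlgebra (𝓞 K) G) = MonoidAlgebra.single (1 : G) d * x +
        -(MonoidAlgebra.single (1 : G) d * (x - MonoidAlgebra.single 1 (aug K G x))) := by
      rw [mul_sub, MonoidAlgebra.single_mul_single, one_mul, ← hcx, h4]
      ring
    rw [h5]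
    refine Submodule.add_mem_sup ?_ ?_
    · exact Ideal.mem_span_singleton'.2 ⟨_, rfl⟩
    · exact Ideal.neg_mem_iff _ |>.2 (Ideal.mul_mem_left _ _ (sub_aug_mem x))
  refine (D_int hl hF hc hcJ n).trans ?_
  refine mul_le_mul_of_nonneg_left ?_ (by positivity)
  have h6 := ix_Aug J le_sup_right hl.ne_zero
  have h7 := hF.sup J 1
  rw [pow_one] at h7
  have h8 : (0 : ℝ) < ix (J ⊔ Ideal.span {(l : MonoidAlgebra (𝓞 K) G)}) :=
    Nat.cast_pos.2 (Nat.pos_of_ne_zero h7)
  have h9 : (ix (J ⊔ Ideal.span {(l : MonoidAlgebra (𝓞 K) G)}) : ℝ) ≤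
      (l : ℝ) ^ finrank ℤ (𝓞 K) := by exact_mod_cast h6
  rw [← Real.log_pow]
  exact Real.log_le_log h8 h9

end

end Pool.Agent.Y194.UP
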